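import Pool.Agent.H7.MM.Defs

/-!
# Module F1: classes of maximal density (adapt `Pool.Agent.H16.PC.exists_dense`)
-/

set_option autoImplicit false

namespace Pool.Agent.H7.MM

open SimpleGraph Pool.Agent.H16.PC

variable {V : Type*} [Fintype V] [DecidableEq V] {G : SimpleGraph V}

/-- `s0` has the largest density. -/
def Dns (G : SimpleGraph V) (s0 : St V) : Prop :=
  Gd G s0 ∧ 1 ≤ tot s0 ∧ ∀ s, Gd G s → 1 ≤ tot s →
    tot s * (ps G s0).card ≤ tot s0 * (ps G s).card

theorem ps_pos {s : St V} (h1 : 1 ≤ tot s) : 0 < (ps G s).card := by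
  have : ∃ v, s.T v ≠ 0 := by
    by_contra hcon
    push Not at hcon
    unfold tot at h1
    rw [Finset.sum_eq_zero (fun v _ => hcon v)] at h1
    omega
  obtain ⟨v, hv⟩ := this
  exact Finset.card_pos.2 ⟨v, mem_ps.2 ⟨s, Relation.ReflTransGen.refl,
    Nat.one_le_iff_ne_zero.2 hv⟩⟩

/-- Existence of a class of largest density. -/
theorem exists_dns {s : St V} (hs : Gd G s) (h1 : 1 ≤ tot s) : ∃ s0, Dns G s0 := by
  classical
  let N := 2 * Fintype.card V
  have hbt : ∀ s : St V, Gd G s → tot s ≤ N := by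
    intro s hs
    unfold tot
    calc ∑ v, s.T v ≤ ∑ v : V, 2 := Finset.sum_le_sum (fun v _ => by have := hs.2 v; omega)
      _ = N := by simp [N, mul_comm]
  let P : Finset (ℕ × ℕ) := ((Finset.range (N + 1)) ×ˢ (Finset.range (Fintype.card V + 1))).filter
    (fun q => ∃ s, Gd G s ∧ 1 ≤ tot s ∧ tot s = q.1 ∧ (ps G s).card = q.2)
  have hmem : ∀ s : St V, Gd G s → 1 ≤ tot s → (tot s, (ps G s).card) ∈ P := by
    intro s hs h1
    rw [Finset.mem_filter, Finset.mem_product, Finset.mem_range, Finset.mem_range]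
    refine ⟨⟨?_, ?_⟩, s, hs, h1, rfl, rfl⟩
    · have := hbt s hs
      show tot s < N + 1
      omega
    · have := Finset.card_le_univ (ps G s)
      show (ps G s).card < Fintype.card V + 1
      omega
  obtain ⟨q, hq, hmax⟩ := P.exists_max_image (fun q => (q.1 : ℚ) / q.2) ⟨_, hmem s hs h1⟩
  rw [Finset.mem_filter] at hq
  obtain ⟨_, s0, hs0, ht0, hq1, hq2⟩ := hq
  refine ⟨s0, hs0, ht0, ?_⟩
  intro s' hs' h1'
  have h2 := hmax _ (hmem s' hs' h1')
  simp only at h2
  rw [← hq1, ← hq2] at h2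
  have h3 : 0 < (ps G s').card := ps_pos h1'
  have h4 : 0 < (ps G s0).card := ps_pos ht0
  rw [div_le_div_iff₀ (by exact_mod_cast h3) (by exact_mod_cast h4)] at h2
  exact_mod_cast h2

/-- Existence of a largest linear forest. -/
theorem exists_maxF (G : SimpleGraph V) : ∃ F, MaxF G F := by
  have hb : ∀ F, LF G F → TD F ≤ 2 * Fintype.card V := by
    intro F hF
    unfold TD
    calc ∑ u, dg F u ≤ ∑ u : V, 2 := Finset.sum_le_sum (fun v _ => hF.2.2 v)
      _ = 2 * Fintype.card V := by simp [mul_comm]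
  have hne : ∃ n, ∃ F, LF G F ∧ 2 * Fintype.card V - TD F = n := by
    refine ⟨_, ⊥, ⟨bot_le, isAcyclic_bot, ?_⟩, rfl⟩
    intro v
    unfold dg
    have : nb (⊥ : SimpleGraph V) v = ∅ := by
      ext w
      simp [mem_nb]
    rw [this]
    simp
  classical
  obtain ⟨F, hF, he⟩ := Nat.find_spec hne
  refine ⟨F, hF, ?_⟩
  intro F' hF'
  have h1 := Nat.find_min' hne ⟨F', hF', rfl⟩
  have h2 := hb F hF
  have h3 := hb F' hF'
  omega

end Pool.Agent.H7.MM
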