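import Pool.Agent.H7.MM.Main
import Pool.Agent.H7.MM.Dense

/-!
# Module F2: the density of a densest class of a regular graph

`M = tot s0 / |X|`, `X = ps G s0`. `Sub G M s0` from `Dns` (and `sub_good`, `rch_good`); `h2` of
`main_prop` from `freeze`: `M |X \ X'| ≤ j ≤ 2`. `main_prop` with `Z` = all vertices outside `X`
with exactly one `F`-neighbour in `X`, `D` = card V, gives `psi ≤ 0`. Then
`M d |X| ≤ 2 e_F(X) + |Z1| + M d |Z2|` and `2 e_F(X) + |Z1| + 2 |Z2| ≤ 2 |X| - t`; conclude as in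
`Pool.Agent.H16.PC.dense_bound`.
-/

set_option autoImplicit false

namespace Pool.Agent.H7.MM

open SimpleGraph Pool.Agent.H16.PC

variable {V : Type*} [Fintype V] [DecidableEq V] {G : SimpleGraph V}

theorem dns_sub {s0 : St V} (h0 : Dns G s0) :
    Sub G ((tot s0 : ℝ) / ((ps G s0).card : ℝ)) s0 := by
  intro s hs R hR
  have hg := rch_good h0.1 hs
  have hg1 : Gd G ⟨s.F, R⟩ := sub_good hg hR
  have hx : (0 : ℝ) < ((ps G s0).card : ℝ) := by exact_mod_cast ps_pos h0.2.1
  have htot : tot (⟨s.F, R⟩ : St V) = ∑ v, R v := rfl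
  by_cases h1 : 1 ≤ tot (⟨s.F, R⟩ : St V)
  · have h2 := h0.2.2 _ hg1 h1
    rw [div_mul_eq_mul_div, le_div_iff₀ hx, ← htot]
    exact_mod_cast h2
  · have h3 : ∑ v, R v = 0 := by omega
    rw [h3]
    have : (0 : ℝ) ≤ (tot s0 : ℝ) / ((ps G s0).card : ℝ) := by positivity
    push_cast
    positivity

theorem bound_arith {d t x q P : ℝ} (ht : 1 ≤ t) (hx : 1 ≤ x) (hq : 0 ≤ q)
    (hP : 0 ≤ P) (h1 : d * t * x ≤ P * x + d * t * q) (h2 : P + 2 * q + t ≤ 2 * x) :
    (d + 1) * t ≤ 2 * x := by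
  have h3 : P * x ≤ (2 * x - t - 2 * q) * x :=
    mul_le_mul_of_nonneg_right (by linarith) (by linarith)
  by_cases h : d * t ≤ 2 * x
  · have h4 : q * (d * t - 2 * x) ≤ 0 := mul_nonpos_of_nonneg_of_nonpos hq (by linarith)
    have h5 : x * ((d + 1) * t) ≤ x * (2 * x) := by nlinarith
    exact le_of_mul_le_mul_left h5 (by linarith)
  · push Not at h
    exfalso
    have h4 : 2 * q * (d * t - 2 * x) ≤ (2 * x - t) * (d * t - 2 * x) :=
      mul_le_mul_of_nonneg_right (by linarith) (by linarith)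
    have h5 : d * t * t ≤ 0 := by nlinarith
    have hdt : 0 < d * t := by linarith
    have h6 : 0 < d * t * t := mul_pos hdt (by linarith)
    linarith

theorem bound_final {d t x q SF SG : ℕ} {M : ℝ} (hM : 0 ≤ M) (hMx : M * (x : ℝ) = (t : ℝ))
    (hP : M * (SG : ℝ) ≤ (SF : ℝ)) (hG : SG + d * q ≥ d * x) (hF : SF + 2 * q + t ≤ 2 * x)
    (ht : 1 ≤ t) (hx : 0 < x) : (d + 1) * t ≤ 2 * x := by
  have hG' : (d : ℝ) * (x : ℝ) ≤ (SG : ℝ) + d * (q : ℝ) := by exact_mod_cast hG
  have hF' : (SF : ℝ) + 2 * (q : ℝ) + (t : ℝ) ≤ 2 * (x : ℝ) := by exact_mod_cast hF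
  have hx1 : (1 : ℝ) ≤ (x : ℝ) := by exact_mod_cast hx
  have ht1 : (1 : ℝ) ≤ (t : ℝ) := by exact_mod_cast ht
  have h9 := mul_le_mul_of_nonneg_left hG' hM
  have h10 : M * (d * (x : ℝ)) * (x : ℝ) ≤ ((SF : ℝ) + M * (d * (q : ℝ))) * (x : ℝ) :=
    mul_le_mul_of_nonneg_right (by rw [mul_add] at h9; linarith) (by linarith)
  have h11 : M * (d * (x : ℝ)) * (x : ℝ) = d * (t : ℝ) * (x : ℝ) := by
    rw [← hMx]; ring
  have h12 : ((SF : ℝ) + M * (d * (q : ℝ))) * (x : ℝ) =
      (SF : ℝ) * (x : ℝ) + d * (t : ℝ) * (q : ℝ) := by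
    rw [← hMx]; ring
  rw [h11, h12] at h10
  have hfin := bound_arith (d := (d : ℝ)) (t := (t : ℝ)) (x := (x : ℝ)) (q := (q : ℝ))
    (P := (SF : ℝ)) ht1 hx1 (by positivity) (by positivity) h10 hF'
  exact_mod_cast hfin

/-- The density of a densest class of a `d`-regular graph is at most `2/(d+1)`. -/
theorem dns_bound {d : ℕ} (hd : ∀ v, dg G v = d) {s0 : St V} (h0 : Dns G s0) :
    (d + 1) * tot s0 ≤ 2 * (ps G s0).card := by
  classical
  have hg := h0.1
  have hxN : 0 < (ps G s0).card := ps_pos h0.2.1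
  have hx : (0 : ℝ) < ((ps G s0).card : ℝ) := by exact_mod_cast hxN
  set M : ℝ := (tot s0 : ℝ) / ((ps G s0).card : ℝ) with hMdef
  have hM : 0 ≤ M := by positivity
  have hMx : M * ((ps G s0).card : ℝ) = tot s0 := by
    rw [hMdef]
    field_simp
  have hsub : Sub G M s0 := dns_sub h0
  have h2 : ∀ v ∈ ps G s0, M * ((nb G v ∩ ps G s0).card : ℝ) ≤ 2 := by
    intro y hy
    obtain ⟨s, hs, R, j, hR, hj1, hj2, htot, hdisj, _⟩ := freeze hg hy
    have hps : ps G ⟨s.F, R⟩ ⊆ ps G s0 := ps_sub hs hR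
    have h3 : (nb G y ∩ ps G s0).card + (ps G ⟨s.F, R⟩).card ≤ (ps G s0).card := by
      rw [← Finset.card_union_of_disjoint hdisj]
      exact Finset.card_le_card (Finset.union_subset Finset.inter_subset_right hps)
    have h4 := hsub s hs R hR
    have h5 : ((∑ v, R v : ℕ) : ℝ) + j = tot s0 := by exact_mod_cast htot
    have h6 : ((nb G y ∩ ps G s0).card : ℝ) + ((ps G ⟨s.F, R⟩).card : ℝ) ≤
        ((ps G s0).card : ℝ) := by exact_mod_cast h3
    have h7 := mul_le_mul_of_nonneg_left h6 hM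
    rw [mul_add, hMx] at h7
    have h8 : (j : ℝ) ≤ 2 := by exact_mod_cast hj2
    linarith
  -- vertices outside with one, respectively two, neighbours in the set of positions
  set Z := Finset.univ.filter (fun v => v ∉ ps G s0 ∧ (nb s0.F v ∩ ps G s0).card = 1) with hZdef
  set A := Finset.univ.filter (fun v => v ∉ ps G s0 ∧ 2 ≤ (nb s0.F v ∩ ps G s0).card) with hAdef
  have hZX : Disjoint Z (ps G s0) := by
    rw [Finset.disjoint_left]
    intro v hv
    exact (Finset.mem_filter.1 hv).2.1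
  have hmain := main_prop hM s0 hg hsub h2 Z hZX (fun c hc => (Finset.mem_filter.1 hc).2.2)
    (Fintype.card V) (fun x _ => Finset.card_le_univ _)
  rw [hMx, sub_self, zero_mul] at hmain
  have hAXZ : Disjoint (ps G s0 ∪ Z) A := by
    rw [Finset.disjoint_left]
    intro v hv hv'
    rw [hAdef, Finset.mem_filter] at hv'
    rw [Finset.mem_union] at hv
    rcases hv with hv | hv
    · exact hv'.2.1 hv
    · have := (Finset.mem_filter.1 hv).2.2
      omega
  -- the sum of the `G`-degrees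
  have hsG : ∑ v ∈ ps G s0 ∪ Z, (nb G v ∩ ps G s0).card + d * A.card ≥ d * (ps G s0).card := by
    have h3 : ∑ v, (nb G v ∩ ps G s0).card = d * (ps G s0).card := by
      rw [sum_inter_card, Finset.sum_congr rfl (fun x _ => hd x), Finset.sum_const, smul_eq_mul,
        mul_comm]
    rw [← h3]
    have h4 : ∑ v, (nb G v ∩ ps G s0).card = ∑ v ∈ (ps G s0 ∪ Z) ∪ A, (nb G v ∩ ps G s0).card := by
      symm
      apply Finset.sum_subset (Finset.subset_univ _)
      intro v _ hv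
      rw [Finset.mem_union, Finset.mem_union, not_or, not_or] at hv
      apply zero_of_zero hg hv.1.1
      by_contra hne
      rcases Nat.lt_or_ge 1 (nb s0.F v ∩ ps G s0).card with h5 | h5
      · exact hv.2 (Finset.mem_filter.2 ⟨Finset.mem_univ _, hv.1.1, h5⟩)
      · exact hv.1.2 (Finset.mem_filter.2 ⟨Finset.mem_univ _, hv.1.1, by omega⟩)
    rw [h4, Finset.sum_union hAXZ]
    apply Nat.add_le_add_left
    rw [mul_comm, ← smul_eq_mul]
    apply Finset.sum_le_card_nsmul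
    intro v _
    rw [← hd v]
    exact Finset.card_le_card Finset.inter_subset_left
  -- the sum of the `F`-degrees
  have hsF : ∑ v ∈ ps G s0 ∪ Z, (nb s0.F v ∩ ps G s0).card + 2 * A.card + tot s0 ≤
      2 * (ps G s0).card := by
    have h3 : ∑ v ∈ (ps G s0 ∪ Z) ∪ A, (nb s0.F v ∩ ps G s0).card ≤
        ∑ x ∈ ps G s0, dg s0.F x := by
      rw [← sum_inter_card]
      exact Finset.sum_le_sum_of_subset (Finset.subset_univ _)
    rw [Finset.sum_union hAXZ] at h3
    have h4 : 2 * A.card ≤ ∑ v ∈ A, (nb s0.F v ∩ ps G s0).card := by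
      rw [mul_comm, ← smul_eq_mul]
      apply Finset.card_nsmul_le_sum
      intro v hv
      exact (Finset.mem_filter.1 hv).2.2
    have h5 : ∑ x ∈ ps G s0, dg s0.F x + tot s0 ≤ 2 * (ps G s0).card := by
      have h6 : tot s0 = ∑ x ∈ ps G s0, s0.T x := by
        unfold tot
        symm
        apply Finset.sum_subset (Finset.subset_univ _)
        intro v _ hv
        by_contra hne
        exact hv (mem_ps.2 ⟨s0, Relation.ReflTransGen.refl, Nat.one_le_iff_ne_zero.2 hne⟩)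
      rw [h6, ← Finset.sum_add_distrib, mul_comm, ← smul_eq_mul]
      apply Finset.sum_le_card_nsmul
      intro x _
      have := hg.2 x
      omega
    omega
  -- conclusion
  refine bound_final hM hMx ?_ hsG hsF h0.2.1 hxN
  have h9 : psi G s0.F M (ps G s0) Z =
      M * ((∑ v ∈ ps G s0 ∪ Z, (nb G v ∩ ps G s0).card : ℕ) : ℝ) -
        ((∑ v ∈ ps G s0 ∪ Z, (nb s0.F v ∩ ps G s0).card : ℕ) : ℝ) := by
    unfold psi
    rw [Finset.sum_sub_distrib, ← Finset.mul_sum, Nat.cast_sum, Nat.cast_sum]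
  rw [h9] at hmain
  exact sub_nonpos.1 hmain

end Pool.Agent.H7.MM
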