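import Pool.Agent.H7.MM.ClosedDefs

/-!
# Module C2a: `s` reachable from `s0`, tokens at `a`, `b`, adjacent in `G`

Both statements follow from `rotate` (a token can be put on every vertex `u` of the component of
`a`, nothing changes outside) and `nb_subset_of_ext`.
-/

set_option autoImplicit false

namespace Pool.Agent.H7.MM

open SimpleGraph Pool.Agent.H16.PC

variable {V : Type*} [Fintype V] [DecidableEq V] {G : SimpleGraph V}

/-- All vertices of the component are positions. -/
theorem comp_sub {s0 s : St V} (hs0 : Gd G s0) (h : Rch G s0 s) {a b : V} (hab : G.Adj a b)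
    (ha : 1 ≤ s.T a) (hb : 1 ≤ s.T b) {u : V} (hu : s.F.Reachable a u) : u ∈ ps G s0 := by
  have hs : Gd G s := rch_good hs0 h
  have hr : s.F.Reachable a b := reachable_of_tokens hs hab ha hb
  obtain ⟨s', h', hu', _, _⟩ := rotate hs hab ha hb hr hu
  exact mem_ps.2 ⟨s', Relation.ReflTransGen.trans h h', hu'⟩

/-- Neighbours of the component have both `F`-neighbours in the set of positions. -/
theorem nbr_two {s0 s : St V} (hs0 : Gd G s0) (h : Rch G s0 s) {a b : V} (hab : G.Adj a b)
    (ha : 1 ≤ s.T a) (hb : 1 ≤ s.T b) {u v : V} (hu : s.F.Reachable a u) (huv : G.Adj u v)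
    (hv : ¬ s.F.Reachable a v) : (nb s.F v ∩ ps G s0).card = 2 := by
  have hs : Gd G s := rch_good hs0 h
  have hr : s.F.Reachable a b := reachable_of_tokens hs hab ha hb
  obtain ⟨s', h', hu', hout, hsep⟩ := rotate hs hab ha hb hr hu
  have h2 := nb_subset_of_ext hs0 (Relation.ReflTransGen.trans h h') hu' huv
    (fun hc => hsep v hv hc.symm)
  obtain ⟨h3, h4⟩ := h2
  rw [(hout v hv).1] at h3
  have h5 : dg s.F v = 2 := by
    have : dg s'.F v = dg s.F v := by
      unfold dg
      rw [(hout v hv).1]
    omega
  rw [Finset.inter_eq_left.2 h3]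
  exact h5

end Pool.Agent.H7.MM
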