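import Pool.Agent.H7.MM.ClosedDefs

/-!
# Module C2b: the other tokens avoid the closed neighbourhood of the closed path

Invariant for `r` reachable from `(s.F, rem (rem s.T a) b)`: for all `u` in the component `C` of `a`
in `s.F`: `nb r.F u = nb s.F u` and `r.T u = 0` (hence `C` is also the component of `a` in `r.F`).
If `r` satisfies it, no token `x` of `r` is adjacent to `u` in `C`: put the tokens at `a`, `b` back
(`rch_unfreeze`), apply `rotate` to this state: a state with tokens at `u` and `x` in different
components, contradiction with `reachable_of_tokens`. Step: the pivot `y` is not in `C`, nor is `z`.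
-/

set_option autoImplicit false

namespace Pool.Agent.H7.MM

open SimpleGraph Pool.Agent.H16.PC

variable {V : Type*} [Fintype V] [DecidableEq V] {G : SimpleGraph V}

/-- If two graphs have the same edges at the component of `a` in the first, these components are
the same. -/
theorem reachable_congr {F F' : SimpleGraph V} {a : V}
    (h : ∀ u, F.Reachable a u → nb F' u = nb F u) (v : V) :
    F'.Reachable a v ↔ F.Reachable a v := by
  constructor
  · intro hv
    rw [SimpleGraph.reachable_iff_reflTransGen] at hv
    induction hv with
    | refl => exact Reachable.refl _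
    | @tail b c _ hbc ih =>
      have h1 : c ∈ nb F b := by
        rw [← h b ih]
        exact mem_nb.2 hbc
      exact ih.trans (mem_nb.1 h1).reachable
  · intro hv
    rw [SimpleGraph.reachable_iff_reflTransGen] at hv
    induction hv with
    | refl => exact Reachable.refl _
    | @tail b c hab hbc ih =>
      have hb : F.Reachable a b := (SimpleGraph.reachable_iff_reflTransGen a b).2 hab
      have h1 : c ∈ nb F' b := by
        rw [h b hb]
        exact mem_nb.2 hbc
      exact ih.trans (mem_nb.1 h1).reachable

/-- A vertex from which a different vertex can be reached has positive degree. -/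
theorem one_le_dg_of_reachable {F : SimpleGraph V} {u v : V} (h : F.Reachable u v) (hne : u ≠ v) :
    1 ≤ dg F u := by
  obtain ⟨p⟩ := h
  have hnil : ¬ p.Nil := fun h' => hne h'.eq
  exact Finset.card_pos.2 ⟨_, mem_nb.2 (p.adj_snd hnil)⟩

theorem avoid {s : St V} (hs : Gd G s) {a b : V} (hab : G.Adj a b)
    (ha : 1 ≤ s.T a) (hb : 1 ≤ s.T b) :
    Disjoint (ncomp G s.F a) (ps G ⟨s.F, rem (rem s.T a) b⟩) := by
  classical
  have hne : a ≠ b := hab.ne
  have hr : s.F.Reachable a b := reachable_of_tokens hs hab ha hb
  have hda := one_le_dg_of_reachable hr hne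
  have hdb := one_le_dg_of_reachable hr.symm hne.symm
  have hTa := hs.2 a
  have hTb := hs.2 b
  set R : V → ℕ := rem (rem s.T a) b with hRdef
  have hR : ∀ v, R v ≤ s.T v := by
    intro v
    rw [hRdef]
    unfold rem
    split_ifs <;> omega
  have hRa : R a = s.T a - 1 := by
    rw [hRdef]
    unfold rem
    rw [if_neg hne, if_pos rfl]
  have hRb : R b = s.T b - 1 := by
    rw [hRdef]
    unfold rem
    rw [if_pos rfl, if_neg hne.symm]
  -- no other tokens in the component
  have hR0 : ∀ u, s.F.Reachable a u → R u = 0 := by
    intro u hu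
    by_cases h1 : u = a
    · subst h1
      omega
    · by_cases h2 : u = b
      · subst h2
        omega
      · by_contra h3
        have h4 := hR u
        have h5 := hs.2 u
        have hdu : dg s.F u ≤ 1 := by omega
        obtain ⟨p1, hp1⟩ := hu.symm.exists_isPath
        obtain ⟨p2, hp2⟩ := (hu.symm.trans hr).exists_isPath
        have hn1 : ¬ p1.Nil := fun h' => h1 h'.eq
        have hn2 : ¬ p2.Nil := fun h' => h2 h'.eq
        have he : p1.snd = p2.snd := by
          have hc : (nb s.F u).card ≤ 1 := hdu
          exact Finset.card_le_one.1 hc _ (mem_nb.2 (p1.adj_snd hn1)) _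
            (mem_nb.2 (p2.adj_snd hn2))
        exact hne (snd_inj hs.1.1.2.2 p1 p2 hp1 hp2 (by omega) (by omega) h1 h2 he)
  -- tokens cannot be adjacent to the component
  have key : ∀ r : St V, Rch G ⟨s.F, R⟩ r →
      (∀ u, s.F.Reachable a u → nb r.F u = nb s.F u ∧ r.T u = 0) →
      ∀ u x, s.F.Reachable a u → 1 ≤ r.T x → ¬ G.Adj u x := by
    intro r hrr hinv u x hu hx hux
    have hcomp := reachable_congr (F := s.F) (F' := r.F) (a := a) (fun u hu => (hinv u hu).1)
    have hxC : ¬ s.F.Reachable a x := by
      intro h
      have := (hinv x h).2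
      omega
    have ht := rch_unfreeze (s0 := s) Relation.ReflTransGen.refl hR hrr
    have hgt := rch_good hs ht
    set t : St V := ⟨r.F, fun v => r.T v + (s.T v - R v)⟩ with htdef
    have hta : 1 ≤ t.T a := by
      show 1 ≤ r.T a + (s.T a - R a)
      omega
    have htb : 1 ≤ t.T b := by
      show 1 ≤ r.T b + (s.T b - R b)
      omega
    obtain ⟨s', hs', hu', hout, hsep⟩ := rotate hgt hab hta htb ((hcomp b).2 hr) ((hcomp u).2 hu)
    have hxt : ¬ t.F.Reachable a x := fun h => hxC ((hcomp x).1 h)
    have hx' : 1 ≤ s'.T x := by
      rw [(hout x hxt).2]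
      show 1 ≤ r.T x + (s.T x - R x)
      omega
    exact hsep x hxt (reachable_of_tokens (rch_good hgt hs') hux hu' hx').symm
  have hinv : ∀ r : St V, Rch G ⟨s.F, R⟩ r →
      ∀ u, s.F.Reachable a u → nb r.F u = nb s.F u ∧ r.T u = 0 := by
    intro r hrr
    induction hrr with
    | refl => exact fun u hu => ⟨rfl, hR0 u hu⟩
    | @tail r r' h1 h2 ih =>
      obtain ⟨x, y, z, hT, hxy, hn, hyz, hac, rfl⟩ := h2
      have hkey := key r h1 ih
      intro u hu
      obtain ⟨ih1, ih2⟩ := ih u hu
      have hyC : ¬ s.F.Reachable a y := fun h => hkey y x h hT hxy.symm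
      have hux : u ≠ x := by
        rintro rfl
        omega
      have huy : u ≠ y := by
        rintro rfl
        exact hyC hu
      have huz : u ≠ z := by
        rintro rfl
        apply hyC
        have h3 : y ∈ nb s.F u := by
          rw [← ih1]
          exact mem_nb.2 hyz.symm
        exact hu.trans (mem_nb.1 h3).reachable
      constructor
      · show nb (mv r.F x y z) u = nb s.F u
        rw [nb_mv_other hxy.ne hux huy huz]
        exact ih1
      · show upd r.T x z u = 0
        unfold upd
        rw [if_neg hux, if_neg huz]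
        exact ih2
  rw [Finset.disjoint_left]
  intro v hv hv'
  obtain ⟨r, hrr, hrv⟩ := mem_ps.1 hv'
  rcases mem_ncomp.1 hv with h | ⟨u, hu, huv⟩
  · have := (hinv r hrr v h).2
    omega
  · exact key r hrr (hinv r hrr) u v hu hrv huv

end Pool.Agent.H7.MM
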