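import Pool.Agent.H7.MM.ClosedA

/-!
# Module C2c: degree sum over the closed neighbourhood of the closed path

Vertices outside the component: `nbr_two`. In the component all `F`-neighbours are positions
(`comp_sub`), so the term is `dg s.F x`; it is `2` except for the ends (`snd_inj`: the paths from
an inner vertex to the two ends start differently).
-/

set_option autoImplicit false

namespace Pool.Agent.H7.MM

open SimpleGraph Pool.Agent.H16.PC

variable {V : Type*} [Fintype V] [DecidableEq V] {G : SimpleGraph V}

/-- A vertex which can reach a different vertex has a neighbour. -/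
theorem one_le_dg_of_reach {F : SimpleGraph V} {a b : V} (hne : a ≠ b) (h : F.Reachable a b) :
    1 ≤ dg F a := by
  obtain ⟨p⟩ := h
  cases p with
  | nil => exact absurd rfl hne
  | cons hadj q => exact Finset.card_pos.2 ⟨_, mem_nb.2 hadj⟩

/-- Degrees in a component of a linear forest with two ends. -/
theorem two_le_dg_add {F : SimpleGraph V} (h2 : ∀ v, dg F v ≤ 2) {a b : V} (hne : a ≠ b)
    (hr : F.Reachable a b) (ha : dg F a ≤ 1) (hb : dg F b ≤ 1) {u : V} (hu : F.Reachable a u) :
    2 ≤ dg F u + (if u = a then 1 else 0) + (if u = b then 1 else 0) := by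
  classical
  by_cases hua : u = a
  · subst hua
    have h1 := one_le_dg_of_reach hne hr
    simp only [if_true]
    omega
  · by_cases hub : u = b
    · subst hub
      have h1 := one_le_dg_of_reach (Ne.symm hne) hr.symm
      simp only [if_true]
      omega
    · have key : 2 ≤ dg F u := by
        obtain ⟨p1, hp1⟩ := hu.symm.exists_isPath
        obtain ⟨p2, hp2⟩ := (hu.symm.trans hr).exists_isPath
        have hn1 : ¬ p1.Nil := fun h => hua h.eq
        have hn2 : ¬ p2.Nil := fun h => hub h.eq
        have hs : p1.snd ≠ p2.snd := fun h => hne (snd_inj h2 p1 p2 hp1 hp2 ha hb hua hub h)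
        have hsub : ({p1.snd, p2.snd} : Finset V) ⊆ nb F u := by
          intro w hw
          rw [Finset.mem_insert, Finset.mem_singleton] at hw
          rcases hw with rfl | rfl
          · exact mem_nb.2 (p1.adj_snd hn1)
          · exact mem_nb.2 (p2.adj_snd hn2)
        have hc := Finset.card_le_card hsub
        rw [Finset.card_pair hs] at hc
        exact hc
      omega

theorem sum_ncomp {s0 s : St V} (hs0 : Gd G s0) (h : Rch G s0 s) {a b : V} (hab : G.Adj a b)
    (ha : 1 ≤ s.T a) (hb : 1 ≤ s.T b) :
    2 * (ncomp G s.F a ∩ ps G s0).card ≤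
      ∑ x ∈ ncomp G s.F a ∩ ps G s0, (nb s.F x ∩ ps G s0).card + 2 := by
  classical
  have hs := rch_good hs0 h
  have hr := reachable_of_tokens hs hab ha hb
  have h2 : ∀ v, dg s.F v ≤ 2 := hs.1.1.2.2
  have hda : dg s.F a ≤ 1 := by have := hs.2 a; omega
  have hdb : dg s.F b ≤ 1 := by have := hs.2 b; omega
  have hpt : ∀ x ∈ ncomp G s.F a ∩ ps G s0,
      2 ≤ (nb s.F x ∩ ps G s0).card + ((if x = a then 1 else 0) + (if x = b then 1 else 0)) := by
    intro x hx
    rw [Finset.mem_inter, mem_ncomp] at hx
    by_cases hxr : s.F.Reachable a x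
    · have hsub : nb s.F x ⊆ ps G s0 := by
        intro w hw
        exact comp_sub hs0 h hab ha hb (hxr.trans (mem_nb.1 hw).reachable)
      rw [Finset.inter_eq_left.2 hsub]
      have := two_le_dg_add h2 hab.ne hr hda hdb hxr
      unfold dg at this
      omega
    · rcases hx.1 with h1 | ⟨u, hu, huv⟩
      · exact absurd h1 hxr
      · have := nbr_two hs0 h hab ha hb hu huv hxr
        omega
  have hsum := Finset.sum_le_sum hpt
  rw [Finset.sum_const, smul_eq_mul, Finset.sum_add_distrib, Finset.sum_add_distrib] at hsum
  have e1 : ∀ c : V, ∑ x ∈ ncomp G s.F a ∩ ps G s0, (if x = c then 1 else 0) ≤ 1 := by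
    intro c
    rw [Finset.sum_ite_eq' (ncomp G s.F a ∩ ps G s0) c (fun _ => 1)]
    split_ifs <;> omega
  have ea := e1 a
  have eb := e1 b
  omega

end Pool.Agent.H7.MM
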