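import Pool.Agent.H7.MM.Rotate

/-!
# Components and their closed neighbourhoods
-/

set_option autoImplicit false

namespace Pool.Agent.H7.MM

open SimpleGraph Pool.Agent.H16.PC

variable {V : Type*} [Fintype V] [DecidableEq V] {G : SimpleGraph V}

open Classical in
/-- The closed neighbourhood of the component of `a`. -/
noncomputable def ncomp (G F : SimpleGraph V) (a : V) : Finset V :=
  Finset.univ.filter (fun v => F.Reachable a v ∨ ∃ u, F.Reachable a u ∧ G.Adj u v)

theorem mem_ncomp {F : SimpleGraph V} {a v : V} :
    v ∈ ncomp G F a ↔ F.Reachable a v ∨ ∃ u, F.Reachable a u ∧ G.Adj u v := by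
  classical
  simp [ncomp]

end Pool.Agent.H7.MM
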