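import Pool.Agent.H7.MM.Defs

/-!
# Module A: classes

Adapt `Pool.Agent.H16.PC.Cls` (same proofs, without the bipartition).
-/

set_option autoImplicit false

namespace Pool.Agent.H7.MM

open SimpleGraph Pool.Agent.H16.PC

variable {V : Type*} [Fintype V] [DecidableEq V] {G : SimpleGraph V}

/-- A rotation does not change the total degree. -/
theorem TD_mv {F : SimpleGraph V} {x y z : V} (hxy : x ≠ y) (hn : ¬ F.Adj x y)
    (hyz : F.Adj y z) : TD (mv F x y z) = TD F := by
  have hxz : x ≠ z := by rintro rfl; exact hn hyz.symm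
  have h : ∀ v ∈ (Finset.univ : Finset V), dg (mv F x y z) v + (if v = z then 1 else 0) =
      dg F v + (if v = x then 1 else 0) := by
    intro v _
    by_cases h1 : v = x
    · subst h1
      rw [dg_mv_x hxy hxz hn]
      simp [hxz]
    · by_cases h2 : v = z
      · subst h2
        rw [if_pos rfl, if_neg h1, dg_mv_z hxy hxz hyz]
        rfl
      · by_cases h3 : v = y
        · subst h3
          rw [dg_mv_y hxy hyz hn]
          simp [h1, h2]
        · rw [dg_mv_other hxy h1 h3 h2]
          simp [h1, h2]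
  have h2 : ∑ v : V, (dg (mv F x y z) v + (if v = z then 1 else 0)) =
      ∑ v : V, (dg F v + (if v = x then 1 else 0)) := Finset.sum_congr rfl h
  rw [Finset.sum_add_distrib, Finset.sum_add_distrib] at h2
  simp only [Finset.sum_ite_eq', Finset.mem_univ, if_true] at h2
  unfold TD
  omega

theorem stp_good {s s' : St V} (hs : Gd G s) (h : Stp G s s') : Gd G s' := by
  obtain ⟨x, y, z, hT, hxy, hn, hyz, hac, rfl⟩ := h
  obtain ⟨⟨⟨hle, _, hdg⟩, hmax⟩, hT2⟩ := hs
  have hne : x ≠ y := hxy.ne
  have hxz : x ≠ z := by rintro rfl; exact hn hyz.symm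
  have hyz' : y ≠ z := hyz.ne
  have hdeg : ∀ v, upd s.T x z v + dg (mv s.F x y z) v ≤ 2 := by
    intro v
    unfold upd
    by_cases h1 : v = x
    · subst h1
      rw [dg_mv_x hne hxz hn, if_pos rfl]
      have := hT2 v
      omega
    · by_cases h2 : v = z
      · subst h2
        rw [if_neg h1, if_pos rfl]
        have h3 := dg_mv_z (F := s.F) hne hxz hyz
        have := hT2 v
        omega
      · rw [if_neg h1, if_neg h2]
        by_cases h3 : v = y
        · subst h3
          rw [dg_mv_y hne hyz hn]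
          exact hT2 v
        · rw [dg_mv_other hne h1 h3 h2]
          exact hT2 v
  refine ⟨⟨⟨?_, hac, ?_⟩, ?_⟩, hdeg⟩
  · intro a b hab
    have hab' : (mv s.F x y z).Adj a b := hab
    rw [mv_adj hne] at hab'
    rcases hab' with ⟨h, _⟩ | h
    · exact hle h
    · rw [Sym2.eq_iff] at h
      rcases h with ⟨rfl, rfl⟩ | ⟨rfl, rfl⟩
      · exact hxy
      · exact hxy.symm
  · intro v
    have := hdeg v
    show dg (mv s.F x y z) v ≤ 2
    omega
  · intro F' hF'
    show TD F' ≤ TD (mv s.F x y z)
    rw [TD_mv hne hn hyz]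
    exact hmax F' hF'

theorem stp_tot {s s' : St V} (h : Stp G s s') : tot s' = tot s := by
  obtain ⟨x, y, z, hT, hxy, hn, hyz, hac, rfl⟩ := h
  have hxz : x ≠ z := by rintro rfl; exact hn hyz.symm
  exact sum_upd s.T hxz hT

theorem rch_good {s s' : St V} (hs : Gd G s) (h : Rch G s s') : Gd G s' := by
  induction h with
  | refl => exact hs
  | tail _ h ih => exact stp_good ih h

theorem rch_tot {s s' : St V} (h : Rch G s s') : tot s' = tot s := by
  induction h with
  | refl => rfl
  | tail _ h ih => rw [stp_tot h, ih]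

/-- Static additional tokens do not matter (one step). -/
theorem stp_lift {s s' : St V} (h : Stp G s s') (R : V → ℕ) :
    Stp G ⟨s.F, fun v => s.T v + R v⟩ ⟨s'.F, fun v => s'.T v + R v⟩ := by
  obtain ⟨x, y, z, hT, hxy, hn, hyz, hac, rfl⟩ := h
  refine ⟨x, y, z, ?_, hxy, hn, hyz, hac, ?_⟩
  · show 1 ≤ s.T x + R x
    omega
  · congr 1
    funext v
    unfold upd
    by_cases h1 : v = x
    · subst h1
      simp only [if_true]
      omega
    · by_cases h2 : v = z
      · subst h2
        simp only [if_neg h1, if_true]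
        omega
      · simp only [if_neg h1, if_neg h2]

/-- Static additional tokens do not matter. -/
theorem rch_lift {s s' : St V} (h : Rch G s s') (R : V → ℕ) :
    Rch G ⟨s.F, fun v => s.T v + R v⟩ ⟨s'.F, fun v => s'.T v + R v⟩ := by
  induction h with
  | refl => exact Relation.ReflTransGen.refl
  | tail _ h ih => exact ih.tail (stp_lift h R)

/-- A sub-family of the tokens of a reachable state is a good state. -/
theorem sub_good {s : St V} (hs : Gd G s) {R : V → ℕ} (hR : ∀ v, R v ≤ s.T v) :
    Gd G ⟨s.F, R⟩ := by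
  refine ⟨hs.1, fun v => ?_⟩
  have h1 := hs.2 v
  have h2 := hR v
  show R v + dg s.F v ≤ 2
  omega

/-- If `s` is reachable from `s0`, `R ≤ s.T` and `r` is reachable from `(s.F, R)`, then adding the
frozen tokens `s.T - R` gives a state reachable from `s0`. -/
theorem rch_unfreeze {s0 s r : St V} {R : V → ℕ} (h : Rch G s0 s) (hR : ∀ v, R v ≤ s.T v)
    (hr : Rch G ⟨s.F, R⟩ r) : Rch G s0 ⟨r.F, fun v => r.T v + (s.T v - R v)⟩ := by
  have h1 := rch_lift hr (fun v => s.T v - R v)
  have h2 : (⟨s.F, fun v => R v + (s.T v - R v)⟩ : St V) = s := by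
    have : (fun v => R v + (s.T v - R v)) = s.T := by
      funext v
      have := hR v
      omega
    rw [this]
  have h3 : Rch G (⟨s.F, fun v => R v + (s.T v - R v)⟩ : St V)
      ⟨r.F, fun v => r.T v + (s.T v - R v)⟩ := h1
  rw [h2] at h3
  exact Relation.ReflTransGen.trans h h3

/-- Positions of a sub-class. -/
theorem ps_sub {s0 s : St V} {R : V → ℕ} (h : Rch G s0 s) (hR : ∀ v, R v ≤ s.T v) :
    ps G ⟨s.F, R⟩ ⊆ ps G s0 := by
  intro v hv
  obtain ⟨r, hr, h1⟩ := mem_ps.1 hv
  refine mem_ps.2 ⟨_, rch_unfreeze h hR hr, ?_⟩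
  show 1 ≤ r.T v + (s.T v - R v)
  omega

/-- In a step of a class both the old and the new position of the token are positions of the
class. -/
theorem stp_mem {s0 s : St V} (hr : Rch G s0 s) {x y z : V} (hT : 1 ≤ s.T x)
    (hxy : G.Adj x y) (hn : ¬ s.F.Adj x y) (hyz : s.F.Adj y z)
    (hac : (mv s.F x y z).IsAcyclic) : x ∈ ps G s0 ∧ z ∈ ps G s0 := by
  have hxz : x ≠ z := by rintro rfl; exact hn hyz.symm
  refine ⟨mem_ps.2 ⟨s, hr, hT⟩, mem_ps.2 ⟨⟨mv s.F x y z, upd s.T x z⟩,
    hr.tail ⟨x, y, z, hT, hxy, hn, hyz, hac, rfl⟩, ?_⟩⟩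
  show 1 ≤ upd s.T x z z
  unfold upd
  rw [if_neg hxz.symm, if_pos rfl]
  omega

/-- The number of `F`-neighbours in the set of positions, at the pivot of a rotation. -/
theorem card_pivot {F : SimpleGraph V} {P : Finset V} {x y z : V} (hne : x ≠ y)
    (hn : ¬ F.Adj x y) (hyz : F.Adj y z) (hx : x ∈ P) (hz : z ∈ P) :
    (nb (mv F x y z) y ∩ P).card = (nb F y ∩ P).card := by
  rw [nb_mv_y hne hyz.ne, Finset.insert_inter_of_mem hx, Finset.card_insert_of_notMem,
    Finset.erase_inter, Finset.card_erase_add_one]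
  · exact Finset.mem_inter.2 ⟨mem_nb.2 hyz, hz⟩
  · intro h
    have := (Finset.mem_erase.1 (Finset.mem_inter.1 h).1).2
    exact hn (mem_nb.1 this).symm

/-- The number of `F`-neighbours in the set of positions of a vertex outside this set is
constant. -/
theorem rch_f {s0 s : St V} (hs0 : Gd G s0) (h : Rch G s0 s) {y : V} (hy : y ∉ ps G s0) :
    (nb s.F y ∩ ps G s0).card = (nb s0.F y ∩ ps G s0).card := by
  induction h with
  | refl => rfl
  | @tail s s' hr hst ih =>
    rw [← ih]
    obtain ⟨x, w, z, hT, hxw, hn, hwz, hac, rfl⟩ := hst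
    have hne : x ≠ w := hxw.ne
    obtain ⟨hxp, hzp⟩ := stp_mem hr hT hxw hn hwz hac
    by_cases hyw : y = w
    · subst hyw
      exact card_pivot hne hn hwz hxp hzp
    · have h1 : y ≠ x := by rintro rfl; exact hy hxp
      have h3 : y ≠ z := by rintro rfl; exact hy hzp
      show (nb (mv s.F x w z) y ∩ ps G s0).card = _
      rw [nb_mv_other hne h1 hyw h3]

/-- Twice the number of edges of the forest inside the set of positions is constant. -/
theorem rch_e {s0 s : St V} (hs0 : Gd G s0) (h : Rch G s0 s) :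
    ∑ y ∈ ps G s0, (nb s.F y ∩ ps G s0).card = ∑ y ∈ ps G s0, (nb s0.F y ∩ ps G s0).card := by
  induction h with
  | refl => rfl
  | @tail s s' hr hst ih =>
    rw [← ih]
    obtain ⟨x, w, z, hT, hxw, hn, hwz, hac, rfl⟩ := hst
    have hne : x ≠ w := hxw.ne
    have hxz : x ≠ z := by rintro rfl; exact hn hwz.symm
    obtain ⟨hxp, hzp⟩ := stp_mem hr hT hxw hn hwz hac
    show ∑ y ∈ ps G s0, (nb (mv s.F x w z) y ∩ ps G s0).card = _
    set P := ps G s0 with hP
    -- the contribution of `w` to the neighbourhoods of `x` and `z`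
    set e : ℕ := if w ∈ P then 1 else 0 with he
    have key : ∀ v ∈ P, (nb (mv s.F x w z) v ∩ P).card + (if v = z then e else 0) =
        (nb s.F v ∩ P).card + (if v = x then e else 0) := by
      intro v _
      by_cases h1 : v = x
      · subst h1
        rw [if_neg hxz, if_pos rfl, nb_mv_x hne hxz]
        by_cases hw : w ∈ P
        · rw [Finset.insert_inter_of_mem hw, Finset.card_insert_of_notMem]
          · simp [he, hw]
          · intro h
            exact hn (mem_nb.1 (Finset.mem_inter.1 h).1)
        · rw [Finset.insert_inter_of_notMem hw]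
          simp [he, hw]
      · by_cases h2 : v = z
        · subst h2
          rw [if_pos rfl, if_neg h1, nb_mv_z hne hxz hwz.ne, Finset.erase_inter]
          by_cases hw : w ∈ P
          · have hm : w ∈ nb s.F v ∩ P := Finset.mem_inter.2 ⟨mem_nb.2 hwz.symm, hw⟩
            have h3 := Finset.card_erase_add_one hm
            simp only [he, hw, if_true]
            omega
          · rw [Finset.erase_eq_of_notMem (fun h => hw (Finset.mem_inter.1 h).2)]
            simp [he, hw]
        · rw [if_neg h2, if_neg h1]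
          by_cases h3 : v = w
          · subst h3
            rw [card_pivot hne hn hwz hxp hzp]
          · rw [nb_mv_other hne h1 h3 h2]
    have h2 := Finset.sum_congr rfl key
    rw [Finset.sum_add_distrib, Finset.sum_add_distrib] at h2
    simp only [Finset.sum_ite_eq', hxp, hzp, if_true] at h2
    omega

end Pool.Agent.H7.MM
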