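import Pool.Agent.H7.MM.Defs

/-!
# Module D: the double counting step (pure finite sums)
-/

set_option autoImplicit false

namespace Pool.Agent.H7.MM

open SimpleGraph Pool.Agent.H16.PC

variable {V : Type*} [Fintype V] [DecidableEq V]

/-- `psi G F M X Z = sum over v in X u Z of (M |N_G(v) n X| - |N_F(v) n X|)`. -/
noncomputable def psi (G F : SimpleGraph V) (M : ℝ) (X Z : Finset V) : ℝ :=
  ∑ v ∈ X ∪ Z, (M * ((nb G v ∩ X).card : ℝ) - ((nb F v ∩ X).card : ℝ))

theorem sum_inter_swap (F : SimpleGraph V) (A B : Finset V) :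
    ∑ y ∈ A, (nb F y ∩ B).card = ∑ x ∈ B, (nb F x ∩ A).card := by
  classical
  have h1 : ∀ (S : Finset V) (y : V), (nb F y ∩ S).card = ∑ x ∈ S, if F.Adj y x then 1 else 0 := by
    intro S y
    rw [Finset.card_eq_sum_ones, Finset.inter_comm, ← Finset.filter_mem_eq_inter,
      Finset.sum_filter]
    apply Finset.sum_congr rfl
    intro x _
    simp only [mem_nb]
  simp_rw [h1]
  rw [Finset.sum_comm]
  apply Finset.sum_congr rfl
  intro x _
  apply Finset.sum_congr rfl
  intro y _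
  simp only [F.adj_comm]

theorem count {G F : SimpleGraph V} {M t : ℝ} (hM : 0 ≤ M) {D j : ℕ} {X X' Z : Finset V}
    (hX' : X' ⊆ X) (hZX : Disjoint Z X)
    (IH : psi G F M X' (((X \ X') ∪ Z).filter (fun v => (nb F v ∩ X').card = 1)) ≤
      (M * (X'.card : ℝ) - (t - j)) * D)
    (h0 : ∀ v ∈ (X \ X') ∪ Z, (nb F v ∩ X').card = 0 → (nb G v ∩ X').card = 0)
    (h2 : ∀ v ∈ (X \ X') ∪ Z, 2 ≤ (nb F v ∩ X').card →
      M * ((nb G v ∩ X').card : ℝ) ≤ ((nb F v ∩ X').card : ℝ))
    (hD : ∀ x ∈ X, (nb G x ∩ (X ∪ Z)).card ≤ D)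
    (hW : j * D ≤ ∑ x ∈ X \ X', (nb F x ∩ (X ∪ Z)).card) :
    psi G F M X Z ≤ (M * (X.card : ℝ) - t) * D := by
  classical
  set W := X \ X' with hWdef
  set A := W ∪ Z with hA
  have hdisj : Disjoint X' A := by
    rw [hA, Finset.disjoint_union_right]
    exact ⟨Finset.disjoint_sdiff, (hZX.mono_right hX').symm⟩
  have hXZ : X ∪ Z = X' ∪ A := by
    rw [hA, ← Finset.union_assoc, hWdef, Finset.union_sdiff_of_subset hX']
  have hsplit : ∀ (H : SimpleGraph V) (v : V),
      ((nb H v ∩ X).card : ℝ) = ((nb H v ∩ X').card : ℝ) + ((nb H v ∩ W).card : ℝ) := by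
    intro H v
    have h1 : nb H v ∩ X = (nb H v ∩ X') ∪ (nb H v ∩ W) := by
      rw [← Finset.inter_union_distrib_left, hWdef, Finset.union_sdiff_of_subset hX']
    have h3 : Disjoint (nb H v ∩ X') (nb H v ∩ W) := by
      have : Disjoint X' W := Finset.disjoint_sdiff
      exact this.mono Finset.inter_subset_right Finset.inter_subset_right
    rw [h1, Finset.card_union_of_disjoint h3]
    push_cast
    ring
  have hpsi : psi G F M X Z =
      ∑ v ∈ X ∪ Z, (M * ((nb G v ∩ X').card : ℝ) - ((nb F v ∩ X').card : ℝ)) +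
      ∑ v ∈ X ∪ Z, (M * ((nb G v ∩ W).card : ℝ) - ((nb F v ∩ W).card : ℝ)) := by
    unfold psi
    rw [← Finset.sum_add_distrib]
    apply Finset.sum_congr rfl
    intro v _
    rw [hsplit G v, hsplit F v]
    ring
  -- the first sum
  have hfirst : ∑ v ∈ X ∪ Z, (M * ((nb G v ∩ X').card : ℝ) - ((nb F v ∩ X').card : ℝ)) ≤
      (M * (X'.card : ℝ) - (t - j)) * D := by
    refine le_trans ?_ IH
    unfold psi
    rw [hXZ, Finset.sum_union hdisj]
    have hd2 : Disjoint X' (A.filter (fun v => (nb F v ∩ X').card = 1)) :=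
      hdisj.mono_right (Finset.filter_subset _ _)
    rw [Finset.sum_union hd2]
    rw [← Finset.sum_filter_add_sum_filter_not A (fun v => (nb F v ∩ X').card = 1)]
    have hneg : ∑ v ∈ A.filter (fun v => ¬ (nb F v ∩ X').card = 1),
        (M * ((nb G v ∩ X').card : ℝ) - ((nb F v ∩ X').card : ℝ)) ≤ 0 := by
      apply Finset.sum_nonpos
      intro v hv
      rw [Finset.mem_filter] at hv
      rcases Nat.lt_or_ge 1 (nb F v ∩ X').card with h | h
      · have := h2 v hv.1 h
        linarith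
      · have hz : (nb F v ∩ X').card = 0 := by omega
        rw [h0 v hv.1 hz, hz]
        simp
    linarith
  -- the second sum
  have hsecond : ∑ v ∈ X ∪ Z, (M * ((nb G v ∩ W).card : ℝ) - ((nb F v ∩ W).card : ℝ)) ≤
      M * ((W.card : ℝ) * D) - j * D := by
    rw [Finset.sum_sub_distrib, ← Finset.mul_sum]
    have hG : ∑ v ∈ X ∪ Z, ((nb G v ∩ W).card : ℝ) ≤ (W.card : ℝ) * D := by
      have h1 : ∑ v ∈ X ∪ Z, (nb G v ∩ W).card ≤ W.card * D := by
        rw [sum_inter_swap, ← smul_eq_mul]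
        apply Finset.sum_le_card_nsmul
        intro x hx
        exact hD x (Finset.mem_sdiff.1 hx).1
      exact_mod_cast h1
    have hF : ((j * D : ℕ) : ℝ) ≤ ∑ v ∈ X ∪ Z, ((nb F v ∩ W).card : ℝ) := by
      have h1 : j * D ≤ ∑ v ∈ X ∪ Z, (nb F v ∩ W).card := by
        rw [sum_inter_swap]
        exact hW
      exact_mod_cast h1
    push_cast at hF
    have := mul_le_mul_of_nonneg_left hG hM
    linarith
  have hcard : (X.card : ℝ) = (X'.card : ℝ) + (W.card : ℝ) := by
    have h1 := Finset.card_sdiff_add_card_eq_card hX'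
    rw [← hWdef] at h1
    have h3 : X.card = X'.card + W.card := by omega
    rw [h3]
    push_cast
    ring
  rw [hpsi, hcard]
  calc _ ≤ (M * (X'.card : ℝ) - (t - j)) * D + (M * ((W.card : ℝ) * D) - j * D) :=
        add_le_add hfirst hsecond
    _ = _ := by ring

end Pool.Agent.H7.MM
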