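import Pool.Agent.H16.PC.Dens
import Pool.Agent.H16.PC.Cover

/-!
# Token classes of linear forests in arbitrary graphs: definitions
-/

set_option autoImplicit false

namespace Pool.Agent.H7.MM

open SimpleGraph Pool.Agent.H16.PC

variable {V : Type*} [Fintype V] [DecidableEq V]

/-- The total degree of `F`. -/
noncomputable def TD (F : SimpleGraph V) : ℕ := ∑ u, dg F u

/-- `F` is a linear forest of `G` with the largest number of edges. -/
def MaxF (G F : SimpleGraph V) : Prop := LF G F ∧ ∀ F', LF G F' → TD F' ≤ TD F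

/-- Good states: a largest linear forest, tokens at missing degrees. -/
def Gd (G : SimpleGraph V) (s : St V) : Prop := MaxF G s.F ∧ ∀ v, s.T v + dg s.F v ≤ 2

/-- One rotation of a token. -/
def Stp (G : SimpleGraph V) (s s' : St V) : Prop :=
  ∃ x y z, 1 ≤ s.T x ∧ G.Adj x y ∧ ¬ s.F.Adj x y ∧ s.F.Adj y z ∧
    (mv s.F x y z).IsAcyclic ∧ s' = ⟨mv s.F x y z, upd s.T x z⟩

/-- Reachability by rotations. -/
def Rch (G : SimpleGraph V) (s s' : St V) : Prop := Relation.ReflTransGen (Stp G) s s'

open Classical in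
/-- The positions which the tokens of `s` can reach. -/
noncomputable def ps (G : SimpleGraph V) (s : St V) : Finset V :=
  Finset.univ.filter (fun v => ∃ s', Rch G s s' ∧ 1 ≤ s'.T v)

theorem mem_ps {G : SimpleGraph V} {s : St V} {v : V} :
    v ∈ ps G s ↔ ∃ s', Rch G s s' ∧ 1 ≤ s'.T v := by
  classical
  simp [ps]

/-- Remove one token at `y`. -/
def rem (T : V → ℕ) (y : V) : V → ℕ := fun v => if v = y then T v - 1 else T v

end Pool.Agent.H7.MM
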