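import Pool.Agent.H7.MM.Bound

/-!
# Module F3: the bound for regular graphs
-/

set_option autoImplicit false

namespace Pool.Agent.H7.MM

open SimpleGraph Pool.Agent.H16.PC

variable {V : Type*} [Fintype V] [DecidableEq V] {G : SimpleGraph V}

/-- A `d`-regular graph has a linear forest `F` with `(d+1)(2n - 2|F|) ≤ 2n`. -/
theorem main_bound {d : ℕ} (hd : ∀ v, dg G v = d) :
    ∃ F, LF G F ∧ (d + 1) * (2 * Fintype.card V) ≤ (d + 1) * TD F + 2 * Fintype.card V := by
  classical
  obtain ⟨F, hF⟩ := exists_maxF G
  refine ⟨F, hF.1, ?_⟩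
  let s : St V := ⟨F, fun v => 2 - dg F v⟩
  have hs : Gd G s := by
    refine ⟨hF, ?_⟩
    intro v
    have := hF.1.2.2 v
    show (2 - dg F v) + dg F v ≤ 2
    omega
  have htot : tot s + TD F = 2 * Fintype.card V := by
    have h1 : tot s = ∑ v, (2 - dg F v) := rfl
    rw [h1]
    unfold TD
    rw [← Finset.sum_add_distrib, Finset.sum_congr rfl (g := fun _ => 2)]
    · simp [mul_comm]
    · intro v _
      have := hF.1.2.2 v
      omega
  by_cases h1 : 1 ≤ tot s
  · obtain ⟨s0, h0⟩ := exists_dns hs h1
    have h2 := dns_bound hd h0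
    have h3 := h0.2.2 s hs h1
    have h4 : (ps G s).card ≤ Fintype.card V := Finset.card_le_univ _
    have h5 : tot s * (ps G s0).card ≤ tot s0 * Fintype.card V :=
      le_trans h3 (Nat.mul_le_mul_left _ h4)
    have h6 : 0 < (ps G s0).card := ps_pos h0.2.1
    have h7 : (d + 1) * tot s ≤ 2 * Fintype.card V := by
      have h8 : (d + 1) * tot s * (ps G s0).card ≤ 2 * Fintype.card V * (ps G s0).card := by
        calc (d + 1) * tot s * (ps G s0).card
            = (d + 1) * (tot s * (ps G s0).card) := by ring
          _ ≤ (d + 1) * (tot s0 * Fintype.card V) := Nat.mul_le_mul_left _ h5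
          _ = ((d + 1) * tot s0) * Fintype.card V := by ring
          _ ≤ (2 * (ps G s0).card) * Fintype.card V := Nat.mul_le_mul_right _ h2
          _ = 2 * Fintype.card V * (ps G s0).card := by ring
      exact Nat.le_of_mul_le_mul_right h8 h6
    have h9 : (d + 1) * (2 * Fintype.card V) = (d + 1) * tot s + (d + 1) * TD F := by
      rw [← htot, mul_add]
    omega
  · have h2 : tot s = 0 := by omega
    rw [h2, zero_add] at htot
    rw [htot]
    omega

end Pool.Agent.H7.MM
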