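import Pool.Agent.H7.MM.ClosedB
import Pool.Agent.H7.MM.ClosedC
import Pool.Agent.H7.MM.Count

/-!
# Module E1: freezing

Take `s` reachable from `s0` with a token at `y`, `r0 = (s.F, rem s.T y)`.
Case 1: no state `r` reachable from `r0` has a token at a `G`-neighbour of `y`: take `s`,
`R = rem s.T y`, `j = 1`. For `x` in `nb G y ∩ X`: `one_le_f`. For `c` in `nb G y ∩ Z`: its
`F`-neighbour `z` in `X` (at the state `s`) is not in `X' = ps (s.F, R)`: a state of the subclass with a
token at `z`, together with the frozen token at `y`, has two tokens (with multiplicity) adjacent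
to `c`, so `two_le_f` and `rch_f` contradict `card = 1`. These edges `(z, c)` are distinct.
Case 2: some `r` reachable from `r0` has a token at `x` adjacent to `y`. Take the state
`s = (r.F, r.T + token at y)` (`rch_unfreeze`), `a = y`, `b = x`, `R = rem (rem s.T y) x`, `j = 2`;
`avoid`, `sum_ncomp`, and `nb G y ∩ Z = ∅` by `nbr_two`, `comp_sub`.
-/

set_option autoImplicit false

namespace Pool.Agent.H7.MM

open SimpleGraph Pool.Agent.H16.PC

variable {V : Type*} [Fintype V] [DecidableEq V] {G : SimpleGraph V}

theorem rem_le (T : V → ℕ) (y : V) (v : V) : rem T y v ≤ T v := by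
  unfold rem
  split_ifs <;> omega

theorem sum_rem {T : V → ℕ} {y : V} (hy : 1 ≤ T y) : (∑ v, rem T y v) + 1 = ∑ v, T v := by
  classical
  have h : ∀ v, rem T y v + (if v = y then 1 else 0) = T v := by
    intro v
    unfold rem
    split_ifs with h
    · subst h
      omega
    · omega
  have h1 : ∑ v : V, (if v = y then (1 : ℕ) else 0) = 1 := by simp
  rw [← Finset.sum_congr rfl (fun v _ => h v), Finset.sum_add_distrib, h1]

/-- **Freezing.** -/
theorem freeze {s0 : St V} (hs0 : Gd G s0) {y : V} (hy : y ∈ ps G s0) :
    ∃ s, Rch G s0 s ∧ ∃ (R : V → ℕ) (j : ℕ), (∀ v, R v ≤ s.T v) ∧ 1 ≤ j ∧ j ≤ 2 ∧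
      (∑ v, R v) + j = tot s0 ∧
      Disjoint (nb G y ∩ ps G s0) (ps G ⟨s.F, R⟩) ∧
      ∀ Z : Finset V, Disjoint Z (ps G s0) → (∀ c ∈ Z, (nb s0.F c ∩ ps G s0).card = 1) →
        j * (nb G y ∩ (ps G s0 ∪ Z)).card ≤
          ∑ x ∈ ps G s0 \ ps G ⟨s.F, R⟩, (nb s.F x ∩ (ps G s0 ∪ Z)).card := by
  classical
  set X := ps G s0 with hX
  obtain ⟨s, hs, hsy⟩ := mem_ps.1 hy
  have hR1 : ∀ v, rem s.T y v ≤ s.T v := rem_le s.T y
  by_cases hcase : ∀ r, Rch G ⟨s.F, rem s.T y⟩ r → ∀ x, G.Adj y x → r.T x = 0
  · -- case 1
    refine ⟨s, hs, rem s.T y, 1, hR1, le_rfl, by norm_num, ?_, ?_, ?_⟩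
    · rw [sum_rem hsy, ← rch_tot hs]
      rfl
    · rw [Finset.disjoint_left]
      intro x hx hx'
      rw [Finset.mem_inter] at hx
      obtain ⟨r, hr, hrx⟩ := mem_ps.1 hx'
      have := hcase r hr x (mem_nb.1 hx.1)
      omega
    · intro Z hZ hZ1
      set X' := ps G ⟨s.F, rem s.T y⟩ with hX'
      have hsplit : ∀ v, (nb s.F v ∩ (X ∪ Z)).card = (nb s.F v ∩ X).card + (nb s.F v ∩ Z).card := by
        intro v
        rw [Finset.inter_union_distrib_left]
        apply Finset.card_union_of_disjoint
        exact Finset.disjoint_of_subset_left Finset.inter_subset_right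
          (Finset.disjoint_of_subset_right Finset.inter_subset_right hZ.symm)
      have hsplitG : (nb G y ∩ (X ∪ Z)).card = (nb G y ∩ X).card + (nb G y ∩ Z).card := by
        rw [Finset.inter_union_distrib_left]
        apply Finset.card_union_of_disjoint
        exact Finset.disjoint_of_subset_left Finset.inter_subset_right
          (Finset.disjoint_of_subset_right Finset.inter_subset_right hZ.symm)
      rw [one_mul, hsplitG, Finset.sum_congr rfl (fun v _ => hsplit v), Finset.sum_add_distrib]
      apply Nat.add_le_add
      · have hsub : nb G y ∩ X ⊆ X \ X' := by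
          intro x hx
          rw [Finset.mem_inter] at hx
          rw [Finset.mem_sdiff]
          refine ⟨hx.2, ?_⟩
          intro hx'
          obtain ⟨r, hr, hrx⟩ := mem_ps.1 hx'
          have := hcase r hr x (mem_nb.1 hx.1)
          omega
        calc (nb G y ∩ X).card = ∑ x ∈ nb G y ∩ X, 1 := Finset.card_eq_sum_ones _
          _ ≤ ∑ x ∈ nb G y ∩ X, (nb s.F x ∩ X).card := by
            apply Finset.sum_le_sum
            intro x hx
            rw [Finset.mem_inter] at hx
            exact one_le_f hs0 hs hsy (mem_nb.1 hx.1)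
          _ ≤ _ := Finset.sum_le_sum_of_subset hsub
      · rw [← sum_inter_swap]
        calc (nb G y ∩ Z).card = ∑ x ∈ nb G y ∩ Z, 1 := Finset.card_eq_sum_ones _
          _ ≤ ∑ c ∈ nb G y ∩ Z, (nb s.F c ∩ (X \ X')).card := by
            apply Finset.sum_le_sum
            intro c hc
            rw [Finset.mem_inter] at hc
            have hyc := mem_nb.1 hc.1
            have hcX : c ∉ X := Finset.disjoint_left.1 hZ hc.2
            have h1 : (nb s.F c ∩ X).card = 1 := by
              rw [rch_f hs0 hs hcX]
              exact hZ1 c hc.2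
            obtain ⟨z, hz⟩ := Finset.card_eq_one.1 h1
            have hz' : z ∈ nb s.F c ∩ X := by
              rw [hz]
              exact Finset.mem_singleton_self z
            rw [Finset.mem_inter] at hz'
            apply Finset.card_pos.2
            refine ⟨z, ?_⟩
            rw [Finset.mem_inter, Finset.mem_sdiff]
            refine ⟨hz'.1, hz'.2, ?_⟩
            intro hzX'
            obtain ⟨r, hr, hrz⟩ := mem_ps.1 hzX'
            have ht := rch_unfreeze hs hR1 hr
            set t : St V := ⟨r.F, fun v => r.T v + (s.T v - rem s.T y v)⟩ with htdef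
            have hty : t.T y = r.T y + 1 := by
              show r.T y + (s.T y - rem s.T y y) = r.T y + 1
              unfold rem
              rw [if_pos rfl]
              omega
            have htz : 1 ≤ t.T z := by
              show 1 ≤ r.T z + (s.T z - rem s.T y z)
              omega
            have hcy : y ∈ nb G c := mem_nb.2 hyc.symm
            have hcz : z ∈ nb G c := mem_nb.2 ((rch_good hs0 hs).1.1.1 (mem_nb.1 hz'.1))
            have h2 : 2 ≤ ∑ x ∈ nb G c, t.T x := by
              by_cases hyz : y = z
              · have h3 : t.T y ≤ ∑ x ∈ nb G c, t.T x :=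
                  Finset.single_le_sum (f := t.T) (fun _ _ => Nat.zero_le _) hcy
                have h4 : r.T y = r.T z := by rw [hyz]
                omega
              · have h3 : ∑ x ∈ ({y, z} : Finset V), t.T x ≤ ∑ x ∈ nb G c, t.T x := by
                  apply Finset.sum_le_sum_of_subset
                  intro w hw
                  rw [Finset.mem_insert, Finset.mem_singleton] at hw
                  rcases hw with rfl | rfl
                  · exact hcy
                  · exact hcz
                rw [Finset.sum_pair hyz] at h3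
                omega
            have h3 := two_le_f hs0 ht h2
            rw [rch_f hs0 ht hcX, hZ1 c hc.2] at h3
            omega
          _ ≤ ∑ c ∈ Z, (nb s.F c ∩ (X \ X')).card :=
            Finset.sum_le_sum_of_subset Finset.inter_subset_right
  · -- case 2
    push Not at hcase
    obtain ⟨r, hr, x, hyx, hrx⟩ := hcase
    have ht := rch_unfreeze hs hR1 hr
    set t : St V := ⟨r.F, fun v => r.T v + (s.T v - rem s.T y v)⟩ with htdef
    have hty : 1 ≤ t.T y := by
      show 1 ≤ r.T y + (s.T y - rem s.T y y)
      unfold rem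
      rw [if_pos rfl]
      omega
    have htx : 1 ≤ t.T x := by
      show 1 ≤ r.T x + (s.T x - rem s.T y x)
      omega
    have hav := avoid (rch_good hs0 ht) hyx hty htx
    have hR2 : ∀ v, rem (rem t.T y) x v ≤ t.T v := fun v =>
      le_trans (rem_le _ _ _) (rem_le _ _ _)
    have hsubn : nb G y ⊆ ncomp G t.F y := by
      intro w hw
      exact mem_ncomp.2 (Or.inr ⟨y, Reachable.refl _, mem_nb.1 hw⟩)
    refine ⟨t, ht, rem (rem t.T y) x, 2, hR2, by norm_num, le_rfl, ?_, ?_, ?_⟩
    · have h1 : 1 ≤ rem t.T y x := by
        unfold rem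
        rw [if_neg hyx.ne']
        exact htx
      have h2 := sum_rem h1
      have h3 := sum_rem hty
      have h4 : tot s0 = ∑ v, t.T v := by
        rw [← rch_tot ht]
        rfl
      omega
    · exact Finset.disjoint_of_subset_left
        (Finset.inter_subset_left.trans hsubn) hav
    · intro Z hZ hZ1
      have hempty : nb G y ∩ Z = ∅ := by
        rw [Finset.eq_empty_iff_forall_notMem]
        intro c hc
        rw [Finset.mem_inter] at hc
        have hcX : c ∉ X := Finset.disjoint_left.1 hZ hc.2
        by_cases hrc : t.F.Reachable y c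
        · exact hcX (comp_sub hs0 ht hyx hty htx hrc)
        · have h1 := nbr_two hs0 ht hyx hty htx (Reachable.refl y) (mem_nb.1 hc.1) hrc
          rw [rch_f hs0 ht hcX, hZ1 c hc.2] at h1
          omega
      have h1 : nb G y ∩ (X ∪ Z) = nb G y ∩ X := by
        rw [Finset.inter_union_distrib_left, hempty, Finset.union_empty]
      rw [h1]
      have hN : ncomp G t.F y ∩ X ⊆ X \ ps G ⟨t.F, rem (rem t.T y) x⟩ := by
        intro w hw
        rw [Finset.mem_inter] at hw
        rw [Finset.mem_sdiff]
        exact ⟨hw.2, Finset.disjoint_left.1 hav hw.1⟩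
      have hcard : (nb G y ∩ X).card + 1 ≤ (ncomp G t.F y ∩ X).card := by
        have hy' : y ∉ nb G y ∩ X := by
          rw [Finset.mem_inter]
          rintro ⟨h, _⟩
          exact G.loopless.irrefl y (mem_nb.1 h)
        rw [← Finset.card_insert_of_notMem hy']
        apply Finset.card_le_card
        intro w hw
        rw [Finset.mem_insert] at hw
        rcases hw with rfl | hw
        · rw [Finset.mem_inter]
          exact ⟨mem_ncomp.2 (Or.inl (Reachable.refl _)), hy⟩
        · rw [Finset.mem_inter] at hw ⊢
          exact ⟨hsubn hw.1, hw.2⟩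
      have h2 := sum_ncomp hs0 ht hyx hty htx
      have h3 : ∑ w ∈ ncomp G t.F y ∩ ps G s0, (nb t.F w ∩ ps G s0).card ≤
          ∑ w ∈ X \ ps G ⟨t.F, rem (rem t.T y) x⟩, (nb t.F w ∩ (X ∪ Z)).card := by
        calc ∑ w ∈ ncomp G t.F y ∩ ps G s0, (nb t.F w ∩ ps G s0).card
            ≤ ∑ w ∈ ncomp G t.F y ∩ ps G s0, (nb t.F w ∩ (X ∪ Z)).card := by
              apply Finset.sum_le_sum
              intro w _
              apply Finset.card_le_card
              exact Finset.inter_subset_inter_left Finset.subset_union_left
          _ ≤ _ := Finset.sum_le_sum_of_subset hN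
      rw [← hX] at h2 h3
      omega

end Pool.Agent.H7.MM
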