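import Pool.Agent.H7.MM.Cls

/-!
# Module B: tokens near a vertex (adaptation of `Pool.Agent.H16.PC.Loc`, by helper84)
-/

set_option autoImplicit false

namespace Pool.Agent.H7.MM

open SimpleGraph Pool.Agent.H16.PC

variable {V : Type*} [Fintype V] [DecidableEq V] {G : SimpleGraph V}

/-- A token of a largest linear forest is adjacent, outside its component, only to vertices of
degree two. -/
theorem two_le_of_ext {F : SimpleGraph V} (hF : MaxF G F) {x y : V}
    (hxy : G.Adj x y) (hr : ¬ F.Reachable x y) (hd : dg F x ≤ 1) : 2 ≤ dg F y := by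
  by_contra hlt
  have hne : x ≠ y := hxy.ne
  have hn : ¬ F.Adj x y := fun h => hr h.reachable
  obtain ⟨⟨hle, hac, hdg⟩, hmax⟩ := hF
  have hx' : nb (F ⊔ SimpleGraph.edge x y) x = insert y (nb F x) := nb_ad_left hne
  have hy' : nb (F ⊔ SimpleGraph.edge x y) y = insert x (nb F y) := by
    have : (F ⊔ SimpleGraph.edge x y) = F ⊔ SimpleGraph.edge y x := by
      rw [SimpleGraph.edge_comm]
    rw [this]
    exact nb_ad_left hne.symm
  have hdx : dg (F ⊔ SimpleGraph.edge x y) x = dg F x + 1 := by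
    unfold dg
    rw [hx', Finset.card_insert_of_notMem]
    rwa [mem_nb]
  have hdy : dg (F ⊔ SimpleGraph.edge x y) y = dg F y + 1 := by
    unfold dg
    rw [hy', Finset.card_insert_of_notMem]
    rw [mem_nb]
    exact fun h => hn h.symm
  have hdo : ∀ v, v ≠ x → v ≠ y → dg (F ⊔ SimpleGraph.edge x y) v = dg F v := by
    intro v h1 h2
    unfold dg
    rw [nb_ad_other hne h1 h2]
  have hLF : LF G (F ⊔ SimpleGraph.edge x y) := by
    refine ⟨?_, IsAcyclic.sup_edge_of_not_reachable hr hac, ?_⟩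
    · intro a b hab
      rw [ad_adj hne] at hab
      rcases hab with h | h
      · exact hle h
      · rw [Sym2.eq_iff] at h
        rcases h with ⟨rfl, rfl⟩ | ⟨rfl, rfl⟩
        · exact hxy
        · exact hxy.symm
    · intro v
      by_cases h1 : v = x
      · subst h1; omega
      · by_cases h2 : v = y
        · subst h2; omega
        · rw [hdo v h1 h2]; exact hdg v
  have h := hmax _ hLF
  have hUD : TD F < TD (F ⊔ SimpleGraph.edge x y) := by
    unfold TD
    apply Finset.sum_lt_sum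
    · intro v _
      by_cases h1 : v = x
      · subst h1; omega
      · by_cases h2 : v = y
        · subst h2; omega
        · rw [hdo v h1 h2]
    · exact ⟨x, Finset.mem_univ x, by omega⟩
  omega

/-- If a legal edge `y z` can be removed when the token `x` moves along `x y`, then `z` is a
reachable position. -/
theorem mem_ps_of_step {s0 s : St V} (hs0 : Gd G s0) (h : Rch G s0 s)
    {x y z : V} (hT : 1 ≤ s.T x) (hxy : G.Adj x y) (hn : ¬ s.F.Adj x y) (hyz : s.F.Adj y z)
    (hr : ¬ (s.F.deleteEdges {s(y, z)}).Reachable x y) : z ∈ ps G s0 := by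
  have hs := rch_good hs0 h
  have hxz : x ≠ z := by rintro rfl; exact hn hyz.symm
  refine mem_ps.2 ⟨⟨mv s.F x y z, upd s.T x z⟩, h.tail ?_, ?_⟩
  · exact ⟨x, y, z, hT, hxy, hn, hyz, mv_isAcyclic hs.1.1.2.1 hr, rfl⟩
  · show 1 ≤ upd s.T x z z
    unfold upd
    rw [if_neg hxz.symm, if_pos rfl]
    omega

/-- A token outside the component of `y`. -/
theorem nb_subset_of_ext {s0 s : St V} (hs0 : Gd G s0) (h : Rch G s0 s)
    {x y : V} (hT : 1 ≤ s.T x) (hxy : G.Adj x y) (hr : ¬ s.F.Reachable x y) :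
    nb s.F y ⊆ ps G s0 ∧ dg s.F y = 2 := by
  have hs := rch_good hs0 h
  have hn : ¬ s.F.Adj x y := fun h => hr h.reachable
  have hd : dg s.F x ≤ 1 := by
    have := hs.2 x
    omega
  have h2 := two_le_of_ext hs.1 hxy hr hd
  refine ⟨?_, le_antisymm (hs.1.1.2.2 y) h2⟩
  intro z hz
  refine mem_ps_of_step hs0 h hT hxy hn (mem_nb.1 hz) ?_
  intro h'
  exact hr (h'.mono (SimpleGraph.deleteEdges_le _))

theorem two_le_f_of_ext {s0 s : St V} (hs0 : Gd G s0) (h : Rch G s0 s)
    {x y : V} (hT : 1 ≤ s.T x) (hxy : G.Adj x y) (hr : ¬ s.F.Reachable x y) :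
    2 ≤ (nb s.F y ∩ ps G s0).card := by
  obtain ⟨h1, h2⟩ := nb_subset_of_ext hs0 h hT hxy hr
  rw [Finset.inter_eq_left.2 h1]
  exact h2.ge

/-- A token in the component of `y`. -/
theorem exists_f_of_own {s0 s : St V} (hs0 : Gd G s0) (h : Rch G s0 s)
    {x y : V} (hT : 1 ≤ s.T x) (hxy : G.Adj x y) (hr : s.F.Reachable x y) :
    ∃ p : s.F.Walk y x, p.IsPath ∧ p.snd ∈ nb s.F y ∩ ps G s0 := by
  have hs := rch_good hs0 h
  by_cases hn : s.F.Adj x y
  · refine ⟨SimpleGraph.Walk.cons hn.symm SimpleGraph.Walk.nil, ?_, ?_⟩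
    · rw [SimpleGraph.Walk.cons_isPath_iff]
      refine ⟨SimpleGraph.Walk.IsPath.nil, ?_⟩
      simp only [SimpleGraph.Walk.support_nil, List.mem_singleton]
      exact hxy.ne.symm
    · rw [Finset.mem_inter]
      constructor
      · rw [mem_nb]
        simpa using hn.symm
      · rw [show (SimpleGraph.Walk.cons hn.symm SimpleGraph.Walk.nil).snd = x from by simp]
        exact mem_ps.2 ⟨s, h, hT⟩
  · obtain ⟨p, hp, hadj, hnr⟩ := exists_near hs.1.1.2.1 hxy.ne hr.symm
    refine ⟨p, hp, Finset.mem_inter.2 ⟨mem_nb.2 hadj, ?_⟩⟩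
    exact mem_ps_of_step hs0 h hT hxy hn hadj hnr

/-- Fact (F2). -/
theorem one_le_f {s0 s : St V} (hs0 : Gd G s0) (h : Rch G s0 s)
    {x y : V} (hT : 1 ≤ s.T x) (hxy : G.Adj x y) :
    1 ≤ (nb s.F y ∩ ps G s0).card := by
  by_cases hr : s.F.Reachable x y
  · obtain ⟨p, _, hp⟩ := exists_f_of_own hs0 h hT hxy hr
    exact Finset.card_pos.2 ⟨_, hp⟩
  · have := two_le_f_of_ext hs0 h hT hxy hr
    omega

/-- Fact (F2'). -/
theorem two_le_f {s0 s : St V} (hs0 : Gd G s0) (h : Rch G s0 s)
    {y : V} (hT : 2 ≤ ∑ x ∈ nb G y, s.T x) :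
    2 ≤ (nb s.F y ∩ ps G s0).card := by
  have hs := rch_good hs0 h
  by_cases hA : ∃ x ∈ nb G y, 2 ≤ s.T x
  · obtain ⟨x, hx, hx2⟩ := hA
    have hxy : G.Adj x y := (mem_nb.1 hx).symm
    refine two_le_f_of_ext hs0 h (by omega) hxy ?_
    intro hr
    have hd : dg s.F x = 0 := by
      have := hs.2 x
      omega
    obtain ⟨p, hp⟩ := hr.exists_isPath
    have hnil : ¬ p.Nil := by
      intro h'
      exact hxy.ne h'.eq
    have := mem_nb.2 (p.adj_snd hnil)
    have h1 : 0 < dg s.F x := Finset.card_pos.2 ⟨_, this⟩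
    omega
  · push Not at hA
    -- two different tokens
    have hex : ∃ x1 ∈ nb G y, ∃ x2 ∈ nb G y, x1 ≠ x2 ∧ 1 ≤ s.T x1 ∧ 1 ≤ s.T x2 := by
      by_contra hcon
      push Not at hcon
      have hle : ∑ x ∈ nb G y, s.T x ≤ 1 := by
        by_cases hz : ∀ x ∈ nb G y, s.T x = 0
        · rw [Finset.sum_eq_zero hz]
          omega
        · push Not at hz
          obtain ⟨x1, hx1, hx1'⟩ := hz
          rw [← Finset.add_sum_erase _ _ hx1]
          have h0 : ∑ x ∈ (nb G y).erase x1, s.T x = 0 := by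
            apply Finset.sum_eq_zero
            intro x hx
            have h3 := hcon x1 hx1 x (Finset.mem_of_mem_erase hx) (Finset.ne_of_mem_erase hx).symm
              (by omega)
            omega
          have := hA x1 hx1
          omega
      omega
    obtain ⟨x1, hx1, x2, hx2, hne, hT1, hT2⟩ := hex
    have hxy1 : G.Adj x1 y := (mem_nb.1 hx1).symm
    have hxy2 : G.Adj x2 y := (mem_nb.1 hx2).symm
    by_cases hr1 : s.F.Reachable x1 y
    · by_cases hr2 : s.F.Reachable x2 y
      · obtain ⟨p1, hp1, hm1⟩ := exists_f_of_own hs0 h hT1 hxy1 hr1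
        obtain ⟨p2, hp2, hm2⟩ := exists_f_of_own hs0 h hT2 hxy2 hr2
        have hd1 : dg s.F x1 ≤ 1 := by
          have := hs.2 x1
          omega
        have hd2 : dg s.F x2 ≤ 1 := by
          have := hs.2 x2
          omega
        have hsnd : p1.snd ≠ p2.snd := by
          intro he
          exact hne (snd_inj hs.1.1.2.2 p1 p2 hp1 hp2 hd1 hd2 hxy1.ne.symm hxy2.ne.symm he)
        have hsub : ({p1.snd, p2.snd} : Finset V) ⊆ nb s.F y ∩ ps G s0 := by
          intro t ht
          rw [Finset.mem_insert, Finset.mem_singleton] at ht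
          rcases ht with rfl | rfl
          · exact hm1
          · exact hm2
        have := Finset.card_le_card hsub
        rwa [Finset.card_pair hsnd] at this
      · exact two_le_f_of_ext hs0 h hT2 hxy2 hr2
    · exact two_le_f_of_ext hs0 h hT1 hxy1 hr1

/-- Two tokens at adjacent vertices are in the same component. -/
theorem reachable_of_tokens {s : St V} (hs : Gd G s) {x y : V} (hxy : G.Adj x y)
    (hx : 1 ≤ s.T x) (hy : 1 ≤ s.T y) : s.F.Reachable x y := by
  by_contra hr
  have h1 := hs.2 x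
  have h2 := hs.2 y
  have := two_le_of_ext hs.1 hxy hr (by omega)
  omega

/-- Outside vertices without `F`-neighbours in the set of positions have no `G`-neighbours in
it. -/
theorem zero_of_zero {s0 : St V} (hs0 : Gd G s0) {y : V} (hy : y ∉ ps G s0)
    (hf : (nb s0.F y ∩ ps G s0).card = 0) : (nb G y ∩ ps G s0).card = 0 := by
  rw [Finset.card_eq_zero, Finset.eq_empty_iff_forall_notMem]
  intro x hx
  rw [Finset.mem_inter, mem_nb] at hx
  obtain ⟨s, hs, hT⟩ := mem_ps.1 hx.2
  have h2 := one_le_f hs0 hs hT hx.1.symm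
  rw [rch_f hs0 hs hy] at h2
  omega

end Pool.Agent.H7.MM
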