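import Pool.Agent.H7.MM.Freeze
import Pool.Agent.H7.MM.Count

/-!
# Module E2: the main induction
-/

set_option autoImplicit false

namespace Pool.Agent.H7.MM

open SimpleGraph Pool.Agent.H16.PC

variable {V : Type*} [Fintype V] [DecidableEq V] {G : SimpleGraph V}

/-- All sub-classes have density at most `M`. -/
def Sub (G : SimpleGraph V) (M : ℝ) (s0 : St V) : Prop :=
  ∀ s, Rch G s0 s → ∀ R : V → ℕ, (∀ v, R v ≤ s.T v) →
    ((∑ v, R v : ℕ) : ℝ) ≤ M * ((ps G ⟨s.F, R⟩).card : ℝ)

theorem psi_const {s0 s : St V} (hs0 : Gd G s0) (h : Rch G s0 s) (M : ℝ) (Z : Finset V)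
    (hZ : Disjoint Z (ps G s0)) :
    psi G s.F M (ps G s0) Z = psi G s0.F M (ps G s0) Z := by
  unfold psi
  rw [Finset.sum_sub_distrib, Finset.sum_sub_distrib]
  congr 1
  have h1 := rch_e hs0 h
  rw [Finset.sum_union hZ.symm, Finset.sum_union hZ.symm]
  have h2 : ∀ v ∈ Z, ((nb s.F v ∩ ps G s0).card : ℝ) = ((nb s0.F v ∩ ps G s0).card : ℝ) := by
    intro v hv
    rw [rch_f hs0 h (Finset.disjoint_left.1 hZ hv)]
  rw [Finset.sum_congr rfl h2]
  congr 1
  exact_mod_cast h1

/-- **Main proposition (G).** -/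
theorem main_prop {M : ℝ} (hM : 0 ≤ M) (s0 : St V) (hs0 : Gd G s0) (h1 : Sub G M s0)
    (h2 : ∀ v ∈ ps G s0, M * ((nb G v ∩ ps G s0).card : ℝ) ≤ 2)
    (Z : Finset V) (hZ : Disjoint Z (ps G s0)) (hZ1 : ∀ c ∈ Z, (nb s0.F c ∩ ps G s0).card = 1)
    (D : ℕ) (hD : ∀ x ∈ ps G s0, (nb G x ∩ (ps G s0 ∪ Z)).card ≤ D) :
    psi G s0.F M (ps G s0) Z ≤ (M * ((ps G s0).card : ℝ) - tot s0) * D := by
  classical
  induction hn : tot s0 using Nat.strong_induction_on generalizing s0 Z D with
  | _ n ih =>
    subst hn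
    have hnn : 0 ≤ M * ((ps G s0).card : ℝ) - tot s0 := by
      have := h1 s0 Relation.ReflTransGen.refl s0.T (fun v => le_rfl)
      have h3 : ((∑ v, s0.T v : ℕ) : ℝ) = (tot s0 : ℝ) := rfl
      rw [h3] at this
      linarith
    by_cases hne : (ps G s0).Nonempty
    · obtain ⟨y, hyX, hymax⟩ :=
        (ps G s0).exists_max_image (fun x => (nb G x ∩ (ps G s0 ∪ Z)).card) hne
      have hle : (nb G y ∩ (ps G s0 ∪ Z)).card ≤ D := hD y hyX
      have key : psi G s0.F M (ps G s0) Z ≤
          (M * ((ps G s0).card : ℝ) - tot s0) * ((nb G y ∩ (ps G s0 ∪ Z)).card : ℕ) := by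
        obtain ⟨s, hs, R, j, hR, hj1, hj2, htot, hdisj, hbig⟩ := freeze hs0 hyX
        have hsub : ps G ⟨s.F, R⟩ ⊆ ps G s0 := ps_sub hs hR
        have hgs := rch_good hs0 hs
        have hg1 : Gd G ⟨s.F, R⟩ := sub_good hgs hR
        have htot1 : tot (⟨s.F, R⟩ : St V) + j = tot s0 := htot
        have hout : ∀ v ∈ (ps G s0 \ ps G ⟨s.F, R⟩) ∪ Z, v ∉ ps G ⟨s.F, R⟩ := by
          intro v hv hv'
          rw [Finset.mem_union, Finset.mem_sdiff] at hv
          rcases hv with hv | hv
          · exact hv.2 hv'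
          · exact Finset.disjoint_left.1 hZ hv (hsub hv')
        have hsubZ : ∀ v ∈ ps G ⟨s.F, R⟩ ∪ (((ps G s0 \ ps G ⟨s.F, R⟩) ∪ Z).filter
            (fun v => (nb s.F v ∩ ps G ⟨s.F, R⟩).card = 1)), v ∈ ps G s0 ∪ Z := by
          intro v hv
          rw [Finset.mem_union, Finset.mem_filter, Finset.mem_union, Finset.mem_sdiff] at hv
          rw [Finset.mem_union]
          rcases hv with hv | ⟨hv | hv, _⟩
          · exact Or.inl (hsub hv)
          · exact Or.inl hv.1
          · exact Or.inr hv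
        rw [← psi_const hs0 hs M Z hZ]
        refine count hM (t := (tot s0 : ℝ)) (j := j) hsub hZ ?_ ?_ ?_ hymax ?_
        · have h3 := ih (tot (⟨s.F, R⟩ : St V)) (by omega) ⟨s.F, R⟩ hg1 ?_ ?_
            (((ps G s0 \ ps G ⟨s.F, R⟩) ∪ Z).filter
              (fun v => (nb s.F v ∩ ps G ⟨s.F, R⟩).card = 1)) ?_ ?_
            ((nb G y ∩ (ps G s0 ∪ Z)).card) ?_ rfl
          · have h4 : (tot s0 : ℝ) - j = (tot (⟨s.F, R⟩ : St V) : ℝ) := by
              rw [← htot1]
              push_cast
              ring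
            rw [h4]
            exact h3
          · intro r hr R' hR'
            have h4 := rch_unfreeze hs hR hr
            exact h1 _ h4 R' (fun v => le_trans (hR' v) (Nat.le_add_right _ _))
          · intro v hv
            have h4 : ((nb G v ∩ ps G ⟨s.F, R⟩).card : ℝ) ≤ ((nb G v ∩ ps G s0).card : ℝ) := by
              exact_mod_cast Finset.card_le_card (Finset.inter_subset_inter_left hsub)
            exact le_trans (mul_le_mul_of_nonneg_left h4 hM) (h2 v (hsub hv))
          · rw [Finset.disjoint_left]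
            intro v hv
            exact hout v (Finset.mem_filter.1 hv).1
          · intro c hc
            exact (Finset.mem_filter.1 hc).2
          · intro x hx
            refine le_trans (Finset.card_le_card ?_) (hymax x (hsub hx))
            exact Finset.inter_subset_inter_left (fun v hv => hsubZ v hv)
        · intro v hv hv0
          exact zero_of_zero hg1 (hout v hv) hv0
        · intro v hv hv2
          rw [Finset.mem_union, Finset.mem_sdiff] at hv
          rcases hv with hv | hv
          · have h4 : ((nb G v ∩ ps G ⟨s.F, R⟩).card : ℝ) ≤ ((nb G v ∩ ps G s0).card : ℝ) := by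
              exact_mod_cast Finset.card_le_card (Finset.inter_subset_inter_left hsub)
            have h5 : (2 : ℝ) ≤ ((nb s.F v ∩ ps G ⟨s.F, R⟩).card : ℝ) := by exact_mod_cast hv2
            exact le_trans (mul_le_mul_of_nonneg_left h4 hM) (le_trans (h2 v hv.1) h5)
          · exfalso
            have h4 := hZ1 v hv
            rw [← rch_f hs0 hs (Finset.disjoint_left.1 hZ hv)] at h4
            have h5 : (nb s.F v ∩ ps G ⟨s.F, R⟩).card ≤ (nb s.F v ∩ ps G s0).card :=
              Finset.card_le_card (Finset.inter_subset_inter_left hsub)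
            omega
        · exact hbig Z hZ hZ1
      refine le_trans key (mul_le_mul_of_nonneg_left ?_ hnn)
      exact_mod_cast hle
    · rw [Finset.not_nonempty_iff_eq_empty] at hne
      have hZe : Z = ∅ := by
        rw [Finset.eq_empty_iff_forall_notMem]
        intro c hc
        have := hZ1 c hc
        rw [hne] at this
        simp at this
      rw [hne] at hnn
      rw [hZe, hne]
      have h3 : psi G s0.F M ∅ ∅ = 0 := by
        unfold psi
        simp
      rw [h3]
      exact mul_nonneg hnn (Nat.cast_nonneg _)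

end Pool.Agent.H7.MM
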