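import Pool.Agent.H7.MM.Loc

/-!
# Module C: closed paths

`a`, `b` carry tokens, are adjacent in `G` and in the same component of the forest. Then the
component can be closed to a cycle (or is a single edge) and every vertex of it can get a token,
while nothing outside changes.

Proof of `rotate`: if `s.F.Adj a b`, both have degree one, the component is `{a, b}`, take `s' = s`.
Otherwise let `H = s.F ⊔ edge a b`. Predicate `Q u`: there are `s'` reachable and `w ≠ u` with
`1 ≤ s'.T u`, `1 ≤ s'.T w`, `G.Adj u w`, `¬ s'.F.Adj u w`, `s'.F ⊔ edge u w = H`, `w` in the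
component `C` of `a` in `s.F`, tokens outside `C` unchanged. `Q a` by `s' = s`. If `Q u` (partner
`w`) and `H.Adj u v`: either `v = w` (swap), or `s'.F.Adj u v` and the token `w` moves via `u` to
`v` (`mv s'.F w u v`: legal since `u` has degree at most one in `s'.F`, so it is isolated after the
removal of `u v`): `Q v` with partner `u`. So `Q` holds on all of `C`.
-/

set_option autoImplicit false

namespace Pool.Agent.H7.MM

open SimpleGraph Pool.Agent.H16.PC

variable {V : Type*} [Fintype V] [DecidableEq V] {G : SimpleGraph V}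

theorem eq_of_dg_le_one {F : SimpleGraph V} {a b c : V} (h : dg F a ≤ 1) (hb : F.Adj a b)
    (hc : F.Adj a c) : b = c := by
  by_contra hne
  have : ({b, c} : Finset V) ⊆ nb F a := by
    intro t ht
    rw [Finset.mem_insert, Finset.mem_singleton] at ht
    rcases ht with rfl | rfl
    · exact mem_nb.2 hb
    · exact mem_nb.2 hc
  have hc := Finset.card_le_card this
  rw [Finset.card_pair hne] at hc
  unfold dg at h
  omega

/-- The predicate carried around the cycle. -/
def RQ (G H : SimpleGraph V) (s : St V) (C : Set V) (u : V) : Prop :=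
  ∃ s' w, Rch G s s' ∧ 1 ≤ s'.T u ∧ 1 ≤ s'.T w ∧ G.Adj u w ∧ ¬ s'.F.Adj u w ∧
    s'.F ⊔ SimpleGraph.edge u w = H ∧ u ∈ C ∧ w ∈ C ∧ ∀ v, v ∉ C → s'.T v = s.T v

theorem RQ_symm {H : SimpleGraph V} {s : St V} {C : Set V} {u w : V} {s' : St V}
    (h : Rch G s s' ∧ 1 ≤ s'.T u ∧ 1 ≤ s'.T w ∧ G.Adj u w ∧ ¬ s'.F.Adj u w ∧
    s'.F ⊔ SimpleGraph.edge u w = H ∧ u ∈ C ∧ w ∈ C ∧ ∀ v, v ∉ C → s'.T v = s.T v) :
    RQ G H s C w := by
  obtain ⟨h1, h2, h3, h4, h5, h6, h7, h8, h9⟩ := h
  refine ⟨s', u, h1, h3, h2, h4.symm, fun h => h5 h.symm, ?_, h8, h7, h9⟩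
  rw [SimpleGraph.edge_comm]
  exact h6

theorem RQ_step {H : SimpleGraph V} {s : St V} (hs : Gd G s) {C : Set V}
    (hC : ∀ u v, u ∈ C → H.Adj u v → v ∈ C) {u v : V} (hu : RQ G H s C u) (huv : H.Adj u v) :
    RQ G H s C v := by
  obtain ⟨s', w, h1, h2, h3, h4, h5, h6, h7, h8, h9⟩ := hu
  by_cases hvw : v = w
  · subst hvw
    exact RQ_symm ⟨h1, h2, h3, h4, h5, h6, h7, h8, h9⟩
  · have hgs := rch_good hs h1
    have hne : u ≠ w := h4.ne
    have hvC : v ∈ C := hC u v h7 huv
    have hadj : s'.F.Adj u v := by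
      rw [← h6, ad_adj hne] at huv
      rcases huv with h | h
      · exact h
      · rw [Sym2.eq_iff] at h
        rcases h with ⟨_, h⟩ | ⟨h, _⟩
        · exact absurd h hvw
        · exact absurd h hne
    have hdu : dg s'.F u ≤ 1 := by
      have := hgs.2 u
      omega
    have huv' : u ≠ v := hadj.ne
    -- legality
    have hleg : ¬ (s'.F.deleteEdges {s(u, v)}).Reachable w u := by
      intro h
      obtain ⟨p⟩ := h.symm
      cases p with
      | nil => exact hne rfl
      | @cons _ c _ hc _ =>
        rw [SimpleGraph.deleteEdges_adj] at hc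
        have := eq_of_dg_le_one hdu hc.1 hadj
        subst this
        exact hc.2 (by simp)
    have hac : (mv s'.F w u v).IsAcyclic := mv_isAcyclic hgs.1.1.2.1 hleg
    have hwu : w ≠ u := hne.symm
    have hwv : w ≠ v := fun h => hvw h.symm
    refine ⟨⟨mv s'.F w u v, upd s'.T w v⟩, u, h1.tail ?_, ?_, ?_, ?_, ?_, ?_, hvC, h7, ?_⟩
    · exact ⟨w, u, v, h3, h4.symm, fun h => h5 h.symm, hadj, hac, rfl⟩
    · show 1 ≤ upd s'.T w v v
      unfold upd
      rw [if_neg hwv.symm, if_pos rfl]
      omega
    · show 1 ≤ upd s'.T w v u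
      unfold upd
      rw [if_neg hne, if_neg huv']
      exact h2
    · exact (hgs.1.1.1 hadj).symm
    · show ¬ (mv s'.F w u v).Adj v u
      rw [mv_adj hwu]
      rintro (⟨_, h⟩ | h)
      · exact h Sym2.eq_swap
      · rw [Sym2.eq_iff] at h
        rcases h with ⟨h, _⟩ | ⟨h, _⟩
        · exact hvw h
        · exact huv' h.symm
    · show mv s'.F w u v ⊔ SimpleGraph.edge v u = H
      rw [← h6]
      ext p q
      rw [ad_adj huv'.symm, ad_adj hne, mv_adj hwu]
      have e1 : s(v, u) = s(u, v) := Sym2.eq_swap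
      have e2 : s(w, u) = s(u, w) := Sym2.eq_swap
      rw [e1, e2]
      constructor
      · rintro ((⟨h, _⟩ | h) | h)
        · exact Or.inl h
        · exact Or.inr h
        · left
          rw [Sym2.eq_iff] at h
          rcases h with ⟨rfl, rfl⟩ | ⟨rfl, rfl⟩
          · exact hadj
          · exact hadj.symm
      · rintro (h | h)
        · by_cases h' : s(p, q) = s(u, v)
          · exact Or.inr h'
          · exact Or.inl (Or.inl ⟨h, h'⟩)
        · exact Or.inl (Or.inr h)
    · intro x hx
      show upd s'.T w v x = s.T x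
      unfold upd
      have h10 : x ≠ w := by rintro rfl; exact hx h8
      have h11 : x ≠ v := by rintro rfl; exact hx hvC
      rw [if_neg h10, if_neg h11]
      exact h9 x hx

theorem rotate {s : St V} (hs : Gd G s) {a b : V} (hab : G.Adj a b) (ha : 1 ≤ s.T a)
    (hb : 1 ≤ s.T b) (hr : s.F.Reachable a b) {u : V} (hu : s.F.Reachable a u) :
    ∃ s', Rch G s s' ∧ 1 ≤ s'.T u ∧
      (∀ v, ¬ s.F.Reachable a v → nb s'.F v = nb s.F v ∧ s'.T v = s.T v) ∧
      (∀ v, ¬ s.F.Reachable a v → ¬ s'.F.Reachable v u) := by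
  classical
  have hne : a ≠ b := hab.ne
  by_cases hF : s.F.Adj a b
  · -- the component is `{a, b}`
    have hda : dg s.F a ≤ 1 := by
      have := hs.2 a
      omega
    have hdb : dg s.F b ≤ 1 := by
      have := hs.2 b
      omega
    have hcomp : ∀ c d, s.F.Reachable c d → (c = a ∨ c = b) → (d = a ∨ d = b) := by
      rintro c d ⟨p⟩
      induction p with
      | nil => exact fun h => h
      | @cons c e d h p ih =>
        intro hc
        apply ih
        rcases hc with rfl | rfl
        · exact Or.inr (eq_of_dg_le_one hda h hF)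
        · exact Or.inl (eq_of_dg_le_one hdb h hF.symm)
    have hu' := hcomp a u hu (Or.inl rfl)
    refine ⟨s, Relation.ReflTransGen.refl, ?_, fun v _ => ⟨rfl, rfl⟩, ?_⟩
    · rcases hu' with rfl | rfl
      · exact ha
      · exact hb
    · intro v hv h
      exact hv (hu.trans h.symm)
  · set C : Set V := {v | s.F.Reachable a v} with hCdef
    set H := s.F ⊔ SimpleGraph.edge a b with hH
    have hC : ∀ c d, c ∈ C → H.Adj c d → d ∈ C := by
      intro c d hc hcd
      rw [hH, ad_adj hne] at hcd
      rcases hcd with h | h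
      · exact SimpleGraph.Reachable.trans hc h.reachable
      · rw [Sym2.eq_iff] at h
        rcases h with ⟨rfl, rfl⟩ | ⟨rfl, rfl⟩
        · exact hr
        · exact SimpleGraph.Reachable.refl _
    have hQa : RQ G H s C a := ⟨s, b, Relation.ReflTransGen.refl, ha, hb, hab, hF, rfl,
      SimpleGraph.Reachable.refl _, hr, fun v _ => rfl⟩
    have hQ : ∀ c d, s.F.Reachable c d → RQ G H s C c → RQ G H s C d := by
      rintro c d ⟨p⟩
      induction p with
      | nil => exact fun h => h
      | @cons c e d h p ih =>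
        intro hc
        exact ih (RQ_step hs hC hc (by rw [hH, ad_adj hne]; exact Or.inl h))
    obtain ⟨s', w, h1, h2, h3, h4, h5, h6, h7, h8, h9⟩ := hQ a u hu hQa
    have hle : s'.F ≤ H := by
      rw [← h6]
      exact le_sup_left
    refine ⟨s', h1, h2, ?_, ?_⟩
    · intro v hv
      refine ⟨?_, h9 v hv⟩
      have h10 : nb H v = nb s.F v := by
        rw [hH]
        apply nb_ad_other hne
        · rintro rfl; exact hv (SimpleGraph.Reachable.refl _)
        · rintro rfl; exact hv hr
      rw [← h10, ← h6]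
      symm
      apply nb_ad_other h4.ne
      · rintro rfl; exact hv h7
      · rintro rfl; exact hv h8
    · intro v hv h
      obtain ⟨p⟩ := h.symm
      have hcl : ∀ c d, s'.F.Walk c d → c ∈ C → d ∈ C := by
        intro c d p
        induction p with
        | nil => exact fun h => h
        | @cons c e d h p ih =>
          intro hc
          exact ih (hC c e hc (hle h))
      exact hv (hcl u v p h7)

end Pool.Agent.H7.MM
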